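import Pool.Agent.H359R3.Descent

/-! Counting lattice points whose rotation lies in the cone of an edge. -/

namespace H359R3

open Finset H359R2

/-- the triangle of lattice points used for counting -/
def TT (R : ℕ) : Finset (ℕ × ℕ) := (Finset.Icc 1 R ×ˢ Finset.Icc 1 R).filter (fun x => 2 * x.2 ≤ x.1)

def r1 (C G1 G2 : ℕ) (x : ℕ × ℕ) : ℕ := G1 * x.1 - C * (G2 * x.2)

def r2 (A G1 G2 : ℕ) (x : ℕ × ℕ) : ℕ := G1 * x.2 + G2 * x.1 + A * (G2 * x.2)

lemma mem_TT {R : ℕ} {x : ℕ × ℕ} : x ∈ TT R ↔ 1 ≤ x.1 ∧ x.1 ≤ R ∧ 1 ≤ x.2 ∧ 2 * x.2 ≤ x.1 := by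
  unfold TT
  rw [Finset.mem_filter, Finset.mem_product, Finset.mem_Icc, Finset.mem_Icc]
  constructor
  · rintro ⟨⟨h1, h2⟩, h3⟩; omega
  · rintro ⟨h1, h2, h3, h4⟩; omega

lemma r1_add {A C G1 G2 R : ℕ} (hG : (3 + A + C) * G2 ≤ G1) {x : ℕ × ℕ} (hx : x ∈ TT R) :
    r1 C G1 G2 x + C * (G2 * x.2) = G1 * x.1 := by
  rw [mem_TT] at hx
  unfold r1
  have h1 : C * (G2 * x.2) ≤ G1 * x.1 := by
    have h2 : C * G2 ≤ G1 := by nlinarith
    calc C * (G2 * x.2) = (C * G2) * x.2 := by ring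
      _ ≤ G1 * x.1 := Nat.mul_le_mul h2 (by omega)
  omega

lemma r2_lt_r1 {A C G1 G2 R : ℕ} (hG : (3 + A + C) * G2 ≤ G1) (hG1 : 1 ≤ G1) {x : ℕ × ℕ}
    (hx : x ∈ TT R) : r2 A G1 G2 x < r1 C G1 G2 x := by
  have h1 := r1_add hG hx
  rw [mem_TT] at hx
  obtain ⟨hx1, hxR, hx2, hx3⟩ := hx
  unfold r2
  have h2 : (A + C + 2) * G2 < G1 := by
    rcases Nat.eq_zero_or_pos G2 with h | h
    · rw [h]; omega
    · nlinarith
  have h3 : G1 * (2 * x.2) ≤ G1 * x.1 := Nat.mul_le_mul_left _ hx3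
  have h4 : (C * G2) * (2 * x.2) ≤ (C * G2) * x.1 := Nat.mul_le_mul_left _ hx3
  have h4' : (A * G2) * (2 * x.2) ≤ (A * G2) * x.1 := Nat.mul_le_mul_left _ hx3
  have h5 : ((A + C + 2) * G2) * x.1 < G1 * x.1 := Nat.mul_lt_mul_of_pos_right h2 hx1
  nlinarith

lemma r2_pos {A G1 G2 R : ℕ} (hG1 : 1 ≤ G1) {x : ℕ × ℕ}
    (hx : x ∈ TT R) : 1 ≤ r2 A G1 G2 x := by
  rw [mem_TT] at hx
  unfold r2
  have : 1 * 1 ≤ G1 * x.2 := Nat.mul_le_mul hG1 hx.2.2.1
  omega

lemma nm_rot {A C G1 G2 R : ℕ} (hG : (3 + A + C) * G2 ≤ G1) {x : ℕ × ℕ}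
    (hx : x ∈ TT R) : Nm A C (r1 C G1 G2 x) (r2 A G1 G2 x) = Nm A C G1 G2 * Nm A C x.1 x.2 := by
  have h1 := r1_add hG hx
  unfold Nm r2
  zify at h1 ⊢
  have h2 : (r1 C G1 G2 x : ℤ) = G1 * x.1 - C * (G2 * x.2) := by linarith
  rw [h2]
  ring

lemma nm_le {A C a b M : ℕ} (ha : a ≤ M) (hb : b ≤ M) : Nm A C a b ≤ (1 + A + C) * M ^ 2 := by
  have := @nm_mono A C a b M M ha hb
  refine this.trans ?_
  unfold Nm
  ring_nf
  omega

lemma rot_inj {A C G1 G2 R : ℕ} (hG1 : 1 ≤ G1) (hG : (3 + A + C) * G2 ≤ G1) {x y : ℕ × ℕ}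
    (hx : x ∈ TT R) (hy : y ∈ TT R) (h1 : r1 C G1 G2 x = r1 C G1 G2 y)
    (h2 : r2 A G1 G2 x = r2 A G1 G2 y) : x = y := by
  have hx1 := r1_add hG hx
  have hy1 := r1_add hG hy
  rw [h1] at hx1
  unfold r2 at h2
  have hpos : (0 : ℤ) < G1 ^ 2 + A * (G1 * G2) + C * G2 ^ 2 := by positivity
  zify at hx1 hy1 h2
  have e1 : ((G1 : ℤ) ^ 2 + A * (G1 * G2) + C * G2 ^ 2) * (x.1 - y.1) = 0 := by
    linear_combination (-(G1 : ℤ) - A * G2) * hx1 + ((G1 : ℤ) + A * G2) * hy1 + (C * G2 : ℤ) * h2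
  have e2 : ((G1 : ℤ) ^ 2 + A * (G1 * G2) + C * G2 ^ 2) * (x.2 - y.2) = 0 := by
    linear_combination (G1 : ℤ) * h2 + (G2 : ℤ) * hx1 - (G2 : ℤ) * hy1
  have f1 : (x.1 : ℤ) - y.1 = 0 := by
    rcases mul_eq_zero.mp e1 with h | h
    · omega
    · exact h
  have f2 : (x.2 : ℤ) - y.2 = 0 := by
    rcases mul_eq_zero.mp e2 with h | h
    · omega
    · exact h
  exact Prod.ext (by omega) (by omega)

/-- An edge whose closed cone contains a vector of slope `< 1`, and with nonzero scalar product,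
lies below the diagonal. -/
lemma slope_edge {A C a b c e p q w1 w2 : ℕ} (h : a * e = b * c + 1) (hdt : 1 ≤ dt A C a b c e)
    (h1 : w1 = p * a + q * c) (h2 : w2 = p * b + q * e) (hw : w2 < w1) :
    1 ≤ a ∧ 1 ≤ c ∧ b ≤ a ∧ e ≤ c := by
  have ha : 1 ≤ a := by
    rcases Nat.eq_zero_or_pos a with h0 | h0
    · rw [h0] at h; omega
    · exact h0
  have hc : 1 ≤ c := by
    rcases Nat.eq_zero_or_pos c with h0 | h0
    · subst h0
      rw [mul_zero, zero_add] at h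
      have ha1 : a = 1 := Nat.eq_one_of_mul_eq_one_right h
      have he1 : e = 1 := Nat.eq_one_of_mul_eq_one_left h
      subst ha1 he1
      unfold dt at hdt
      have hb : 1 ≤ b := by
        rcases Nat.eq_zero_or_pos b with h0 | h0
        · subst h0; simp at hdt
        · exact h0
      have : p * 1 ≤ p * b := Nat.mul_le_mul_left _ hb
      omega
    · exact h0
  have hec : e ≤ c := by
    by_contra hcon
    push Not at hcon
    have hba : a ≤ b := by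
      by_contra hcon2
      push Not at hcon2
      have h3 : a * (c + 1) ≤ a * e := Nat.mul_le_mul_left _ hcon
      have h4 : (b + 1) * c ≤ a * c := Nat.mul_le_mul_right _ hcon2
      nlinarith
    have h5 : p * a ≤ p * b := Nat.mul_le_mul_left _ hba
    have h6 : q * c ≤ q * e := Nat.mul_le_mul_left _ hcon.le
    omega
  refine ⟨ha, hc, ?_, hec⟩
  have h7 : a * e ≤ a * c := Nat.mul_le_mul_left _ hec
  have h8 : b * c < a * c := by omega
  exact (Nat.lt_of_mul_lt_mul_right h8).le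

lemma dt_le {A C a b c e : ℕ} (hb : b ≤ a) (he : e ≤ c) : dt A C a b c e ≤ (1 + A + C) * (a * c) := by
  unfold dt
  have : b * e ≤ a * c := Nat.mul_le_mul hb he
  have h2 : C * (b * e) ≤ C * (a * c) := Nat.mul_le_mul_left _ this
  have h3 : A * (b * c) ≤ A * (a * c) := Nat.mul_le_mul_left _ (Nat.mul_le_mul_right _ hb)
  nlinarith

lemma card_le_of_diff (S : Finset ℕ) (D : ℕ) (h : ∀ x ∈ S, ∀ y ∈ S, y ≤ x + D) :
    S.card ≤ D + 1 := by
  rcases S.eq_empty_or_nonempty with rfl | hne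
  · simp
  · have hsub : S ⊆ Finset.Icc (S.min' hne) (S.min' hne + D) := by
      intro x hx
      rw [Finset.mem_Icc]
      exact ⟨Finset.min'_le _ _ hx, h _ (Finset.min'_mem _ _) _ hx⟩
    calc S.card ≤ (Finset.Icc (S.min' hne) (S.min' hne + D)).card := Finset.card_le_card hsub
      _ = D + 1 := by rw [Nat.card_Icc]; omega

/-- Sector count. -/
lemma sector_count (A C G1 G2 R a b c e : ℕ) (hG1 : 1 ≤ G1)
    (hG : (3 + A + C) * G2 ≤ G1) (h : a * e = b * c + 1) (hb : b ≤ a) (he : e ≤ c)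
    (hn : 1 ≤ dt A C a b c e)
    (S : Finset (ℕ × ℕ)) (hS : ∀ x ∈ S, x ∈ TT R ∧
      ∃ p q : ℕ, r1 C G1 G2 x = p * a + q * c ∧ r2 A G1 G2 x = p * b + q * e) :
    (S.card : ℝ) ≤ (1 + A + C) ^ 2 * R ^ 2 / (dt A C a b c e) + R := by
  classical
  have hmaps : ∀ x ∈ S, x.1 ∈ Finset.Icc 1 R := by
    intro x hx
    have := (hS x hx).1
    rw [mem_TT] at this
    rw [Finset.mem_Icc]; omega
  set n := dt A C a b c e with hndef
  have hcard := Finset.card_eq_sum_card_fiberwise hmaps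
  have hfib : ∀ t ∈ Finset.Icc 1 R, (S.filter (fun x => x.1 = t)).card ≤ (1 + A + C) ^ 2 * R / n + 1 := by
    intro t ht
    rw [Finset.mem_Icc] at ht
    set F := S.filter (fun x => x.1 = t) with hF
    have hinj : Set.InjOn (fun x : ℕ × ℕ => x.2) (F : Set (ℕ × ℕ)) := by
      intro x hx y hy hxy
      rw [Finset.mem_coe, hF, Finset.mem_filter] at hx hy
      exact Prod.ext (by omega) hxy
    rw [← Finset.card_image_of_injOn hinj]
    apply card_le_of_diff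
    intro u hu v hv
    rw [Finset.mem_image] at hu hv
    obtain ⟨x, hx, rfl⟩ := hu
    obtain ⟨y, hy, rfl⟩ := hv
    rw [hF, Finset.mem_filter] at hx hy
    obtain ⟨hxS, hxt⟩ := hx
    obtain ⟨hyS, hyt⟩ := hy
    obtain ⟨hxT, p, q, hx1, hx2⟩ := hS x hxS
    obtain ⟨hyT, p', q', hy1, hy2⟩ := hS y hyS
    have hxa := r1_add hG hxT
    have hya := r1_add hG hyT
    rcases le_total y.2 x.2 with hle | hle
    · exact le_trans hle (Nat.le_add_right _ _)
    suffices hsuf : y.2 - x.2 ≤ (1 + A + C) ^ 2 * R / n by omega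
    rw [Nat.le_div_iff_mul_le (by omega)]
    -- det(u, g x) ≥ 0
    rw [hx1] at hxa
    rw [hy1] at hya
    unfold r2 at hx2 hy2
    rw [hxt] at hxa hx2
    rw [hyt] at hya hy2
    have hnle : n ≤ (1 + A + C) * (a * c) := dt_le hb he
    obtain ⟨s, hs⟩ : ∃ s, y.2 = x.2 + s := ⟨y.2 - x.2, by omega⟩
    have hs' : y.2 - x.2 = s := by omega
    rw [hs']
    rw [hs] at hya hy2
    -- s * α * γ ≤ t * N(g)
    have hkey : s * ((a * G1 + A * (a * G2) + C * (b * G2)) * (c * G1 + A * (c * G2) + C * (e * G2)))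
        ≤ t * (G1 ^ 2 + A * (G1 * G2) + C * G2 ^ 2) := by
      zify at h hxa hx2 hya hy2 ⊢
      -- det(u,gx) = q ≥ 0, det (gy, v) = p' ≥ 0
      have hq : (a : ℤ) * (G1 * x.2 + G2 * t + A * (G2 * x.2)) - b * (G1 * t - C * (G2 * x.2)) = q := by
        have : (G1 : ℤ) * t - C * (G2 * x.2) = p * a + q * c := by linarith
        rw [this, hx2]
        linear_combination (q : ℤ) * h
      have hp : (G1 * t - C * (G2 * (x.2 + s)) : ℤ) * e -
          (G1 * (x.2 + s) + G2 * t + A * (G2 * (x.2 + s))) * c = p' := by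
        have : (G1 : ℤ) * t - C * (G2 * (x.2 + s)) = p' * a + q' * c := by linarith
        rw [this, hy2]
        linear_combination (p' : ℤ) * h
      have hqp : 0 ≤ (q : ℤ) * (c * G1 + A * (c * G2) + C * (e * G2)) +
          (p' : ℤ) * (a * G1 + A * (a * G2) + C * (b * G2)) := by
        positivity
      have hid : (t : ℤ) * (G1 ^ 2 + A * (G1 * G2) + C * G2 ^ 2) -
          s * ((a * G1 + A * (a * G2) + C * (b * G2)) * (c * G1 + A * (c * G2) + C * (e * G2))) =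
          (q : ℤ) * (c * G1 + A * (c * G2) + C * (e * G2)) +
          (p' : ℤ) * (a * G1 + A * (a * G2) + C * (b * G2)) := by
        rw [← hq, ← hp]
        linear_combination (-(t : ℤ) * (G1 ^ 2 + A * (G1 * G2) + C * G2 ^ 2)) * h
      linarith
    have hle1 : s * ((a * c) * G1 ^ 2) ≤ t * ((1 + A + C) * G1 ^ 2) := by
      calc s * ((a * c) * G1 ^ 2) ≤
            s * ((a * G1 + A * (a * G2) + C * (b * G2)) * (c * G1 + A * (c * G2) + C * (e * G2))) := by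
            apply Nat.mul_le_mul_left
            calc (a * c) * G1 ^ 2 = (a * G1) * (c * G1) := by ring
              _ ≤ _ := Nat.mul_le_mul (by rw [add_assoc]; exact Nat.le_add_right _ _)
                  (by rw [add_assoc]; exact Nat.le_add_right _ _)
        _ ≤ t * (G1 ^ 2 + A * (G1 * G2) + C * G2 ^ 2) := hkey
        _ ≤ t * ((1 + A + C) * G1 ^ 2) := by
            apply Nat.mul_le_mul_left
            have : G2 ≤ G1 := by nlinarith
            have h9 : G2 ^ 2 ≤ G1 ^ 2 := Nat.pow_le_pow_left this 2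
            have h9' : G1 * G2 ≤ G1 * G1 := Nat.mul_le_mul_left _ this
            have h10 : C * G2 ^ 2 ≤ C * G1 ^ 2 := Nat.mul_le_mul_left _ h9
            have h11 : A * (G1 * G2) ≤ A * (G1 * G1) := Nat.mul_le_mul_left _ h9'
            nlinarith
    have hle2 : s * (a * c) ≤ (1 + A + C) * t := by
      have hpos : 0 < G1 ^ 2 := by positivity
      apply Nat.le_of_mul_le_mul_right _ hpos
      calc s * (a * c) * G1 ^ 2 = s * ((a * c) * G1 ^ 2) := by ring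
        _ ≤ _ := hle1
        _ = (1 + A + C) * t * G1 ^ 2 := by ring
    calc s * n ≤ s * ((1 + A + C) * (a * c)) := Nat.mul_le_mul_left _ hnle
      _ = (1 + A + C) * (s * (a * c)) := by ring
      _ ≤ (1 + A + C) * ((1 + A + C) * t) := Nat.mul_le_mul_left _ hle2
      _ ≤ (1 + A + C) * ((1 + A + C) * R) := by
          apply Nat.mul_le_mul_left; apply Nat.mul_le_mul_left; omega
      _ = (1 + A + C) ^ 2 * R := by ring
  have hnat : S.card ≤ R * ((1 + A + C) ^ 2 * R / n + 1) := by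
    rw [hcard]
    calc ∑ t ∈ Finset.Icc 1 R, (S.filter (fun x => x.1 = t)).card
        ≤ ∑ t ∈ Finset.Icc 1 R, ((1 + A + C) ^ 2 * R / n + 1) := Finset.sum_le_sum hfib
      _ = R * ((1 + A + C) ^ 2 * R / n + 1) := by
        rw [Finset.sum_const, Nat.card_Icc, smul_eq_mul]; simp
  calc (S.card : ℝ) ≤ ((R * ((1 + A + C) ^ 2 * R / n + 1) : ℕ) : ℝ) := by exact_mod_cast hnat
    _ = R * ((((1 + A + C) ^ 2 * R / n : ℕ) : ℝ) + 1) := by push_cast; ring
    _ ≤ R * ((((1 + A + C) ^ 2 * R : ℕ) : ℝ) / n + 1) := by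
        apply mul_le_mul_of_nonneg_left _ (by positivity)
        have := @Nat.cast_div_le ℝ _ _ _ ((1 + A + C) ^ 2 * R) n
        linarith
    _ = (1 + A + C) ^ 2 * R ^ 2 / n + R := by push_cast; ring

/-- Crude count. -/
lemma crude_count (A C G1 G2 R a b c e : ℕ) (hG1 : 1 ≤ G1) (hR : 1 ≤ R)
    (hG : (3 + A + C) * G2 ≤ G1) (h : a * e = b * c + 1) (ha : 1 ≤ a) (hc : 1 ≤ c)
    (hb : b ≤ a) (he : e ≤ c) (hn : 1 ≤ dt A C a b c e)
    (S : Finset (ℕ × ℕ)) (hS : ∀ x ∈ S, x ∈ TT R ∧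
      (∃ p q : ℕ, r1 C G1 G2 x = p * a + q * c ∧ r2 A G1 G2 x = p * b + q * e) ∧
      Nm A C a b ≤ Nm A C (r1 C G1 G2 x) (r2 A G1 G2 x) ∧ Nm A C c e ≤ Nm A C (r1 C G1 G2 x) (r2 A G1 G2 x)) :
    (S.card : ℝ) ≤ (2 + A + C) ^ 2 * (1 + A + C) * G1 ^ 2 * R ^ 2 / (dt A C a b c e) := by
  classical
  set n := dt A C a b c e with hndef
  rcases S.eq_empty_or_nonempty with rfl | ⟨x0, hx0⟩
  · simp only [Finset.card_empty, Nat.cast_zero]; positivity
  -- bounds on a and c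
  have hG21 : G2 ≤ G1 := by nlinarith
  have hbound : ∀ z : ℕ, z ^ 2 ≤ Nm A C (r1 C G1 G2 x0) (r2 A G1 G2 x0) → z ≤ (1 + A + C) * (G1 * R) := by
    intro z hz
    obtain ⟨hxT, _, _, _⟩ := hS x0 hx0
    rw [nm_rot hG hxT] at hz
    have h1 : Nm A C G1 G2 ≤ (1 + A + C) * G1 ^ 2 := nm_le le_rfl hG21
    rw [mem_TT] at hxT
    have h2 : Nm A C x0.1 x0.2 ≤ (1 + A + C) * R ^ 2 := nm_le (by omega) (by omega)
    have h3 : z ^ 2 ≤ ((1 + A + C) * (G1 * R)) ^ 2 := by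
      calc z ^ 2 ≤ Nm A C G1 G2 * Nm A C x0.1 x0.2 := hz
        _ ≤ ((1 + A + C) * G1 ^ 2) * ((1 + A + C) * R ^ 2) := Nat.mul_le_mul h1 h2
        _ = ((1 + A + C) * (G1 * R)) ^ 2 := by ring
    exact (Nat.pow_le_pow_iff_left two_ne_zero).mp h3
  have haB : a ≤ (1 + A + C) * (G1 * R) := by
    apply hbound
    refine le_trans ?_ (hS x0 hx0).2.2.1
    unfold Nm; omega
  have hcB : c ≤ (1 + A + C) * (G1 * R) := by
    apply hbound
    refine le_trans ?_ (hS x0 hx0).2.2.2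
    unfold Nm; omega
  let φ : ℕ × ℕ → ℕ × ℕ := fun x =>
    (r1 C G1 G2 x * e - r2 A G1 G2 x * c, r2 A G1 G2 x * a - r1 C G1 G2 x * b)
  have hφ : ∀ x, ∀ p q : ℕ, r1 C G1 G2 x = p * a + q * c → r2 A G1 G2 x = p * b + q * e →
      φ x = (p, q) := by
    intro x p q h1 h2
    have e1 : r1 C G1 G2 x * e = r2 A G1 G2 x * c + p := by
      rw [h1, h2]
      zify at h ⊢
      linear_combination (p : ℤ) * h
    have e2 : r2 A G1 G2 x * a = r1 C G1 G2 x * b + q := by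
      rw [h1, h2]
      zify at h ⊢
      linear_combination (q : ℤ) * h
    have h3 : r1 C G1 G2 x * e - r2 A G1 G2 x * c = p := by rw [e1]; omega
    have h4 : r2 A G1 G2 x * a - r1 C G1 G2 x * b = q := by rw [e2]; omega
    exact Prod.ext h3 h4
  have hinj : Set.InjOn φ (S : Set (ℕ × ℕ)) := by
    intro x hx y hy hxy
    obtain ⟨hxT, ⟨p, q, hx1, hx2⟩, _⟩ := hS x hx
    obtain ⟨hyT, ⟨p', q', hy1, hy2⟩, _⟩ := hS y hy
    rw [hφ x p q hx1 hx2, hφ y p' q' hy1 hy2] at hxy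
    obtain ⟨rfl, rfl⟩ := Prod.mk.inj hxy
    exact rot_inj hG1 hG hxT hyT (by rw [hx1, hy1]) (by rw [hx2, hy2])
  have himg : S.image φ ⊆ Finset.range (G1 * R / a + 1) ×ˢ Finset.range (G1 * R / c + 1) := by
    intro z hz
    rw [Finset.mem_image] at hz
    obtain ⟨x, hx, rfl⟩ := hz
    obtain ⟨hxT, ⟨p, q, hx1, hx2⟩, _⟩ := hS x hx
    rw [hφ x p q hx1 hx2, Finset.mem_product, Finset.mem_range, Finset.mem_range,
      Nat.lt_succ_iff, Nat.lt_succ_iff, Nat.le_div_iff_mul_le ha, Nat.le_div_iff_mul_le hc]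
    have hxa := r1_add hG hxT
    rw [mem_TT] at hxT
    have h5 : G1 * x.1 ≤ G1 * R := Nat.mul_le_mul_left _ hxT.2.1
    simp only
    omega
  have hcard : S.card ≤ (G1 * R / a + 1) * (G1 * R / c + 1) := by
    calc S.card = (S.image φ).card := (Finset.card_image_of_injOn hinj).symm
      _ ≤ (Finset.range (G1 * R / a + 1) ×ˢ Finset.range (G1 * R / c + 1)).card :=
          Finset.card_le_card himg
      _ = _ := by rw [Finset.card_product, Finset.card_range, Finset.card_range]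
  have haR : (0 : ℝ) < a := by exact_mod_cast ha
  have hcR : (0 : ℝ) < c := by exact_mod_cast hc
  have hnR : (0 : ℝ) < n := by exact_mod_cast hn
  have hz : ∀ z : ℕ, 1 ≤ z → z ≤ (1 + A + C) * (G1 * R) →
      ((G1 * R / z + 1 : ℕ) : ℝ) ≤ (2 + A + C) * (G1 * R) / z := by
    intro z hz1 hz2
    have hzR : (0 : ℝ) < z := by exact_mod_cast hz1
    have h1 := @Nat.cast_div_le ℝ _ _ _ (G1 * R) z
    have h2 : (1 : ℝ) ≤ ((1 + A + C) * (G1 * R)) / z := by
      rw [le_div_iff₀ hzR, one_mul]; exact_mod_cast hz2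
    push_cast at h1 ⊢
    calc ((G1 * R / z : ℕ) : ℝ) + 1 ≤ (G1 * R) / z + ((1 + A + C) * (G1 * R)) / z := by linarith
      _ = (2 + A + C) * (G1 * R) / z := by ring
  calc (S.card : ℝ) ≤ (((G1 * R / a + 1) * (G1 * R / c + 1) : ℕ) : ℝ) := by exact_mod_cast hcard
    _ = ((G1 * R / a + 1 : ℕ) : ℝ) * ((G1 * R / c + 1 : ℕ) : ℝ) := by push_cast; ring
    _ ≤ ((2 + A + C) * (G1 * R) / a) * ((2 + A + C) * (G1 * R) / c) :=
        mul_le_mul (hz a ha haB) (hz c hc hcB) (by positivity) (by positivity)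
    _ = ((2 + A + C) ^ 2 * G1 ^ 2 * R ^ 2) / (a * c) := by field_simp
    _ ≤ (2 + A + C) ^ 2 * (1 + A + C) * G1 ^ 2 * R ^ 2 / n := by
        rw [div_le_div_iff₀ (by positivity) hnR]
        have h3 : (n : ℝ) ≤ (1 + A + C) * (a * c) := by exact_mod_cast (dt_le hb he)
        calc ((2 + A + C) ^ 2 * G1 ^ 2 * R ^ 2 : ℝ) * n
            ≤ ((2 + A + C) ^ 2 * G1 ^ 2 * R ^ 2) * ((1 + A + C) * (a * c)) :=
              mul_le_mul_of_nonneg_left h3 (by positivity)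
          _ = _ := by ring

end H359R3
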