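import Pool.Agent.H359R2.Count

/-! Number of solutions of `m ∣ n^2 + A n + C` in an interval, second moment of the divisor
function along `n^2 + A n + C`. -/

namespace H359R3

open Finset H359R2

/-- the polynomial -/
def PP (A C n : ℕ) : ℕ := n ^ 2 + A * n + C

/-- absolute value of the discriminant -/
def DD (A C : ℕ) : ℕ := ((A : ℤ) ^ 2 - 4 * C).natAbs

lemma DD_pos {A C : ℕ} (h : A ^ 2 ≠ 4 * C) : 1 ≤ DD A C := by
  unfold DD
  have : (A : ℤ) ^ 2 - 4 * C ≠ 0 := by
    intro h0
    apply h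
    have : (A : ℤ) ^ 2 = 4 * C := by linarith
    exact_mod_cast this
  exact Int.natAbs_pos.mpr this

/-- solutions of `m ∣ n^2+A n+C` in `(X, X+L]`. -/
lemma card_dvd_PP (A C m X L : ℕ) (hd : A ^ 2 ≠ 4 * C) (hm : 1 ≤ m) :
    (((Finset.Ioc X (X + L)).filter (fun n => m ∣ PP A C n)).card : ℝ) ≤
      DD A C * tau m * (L / m + 1) := by
  classical
  have hDpos := DD_pos hd
  set D := DD A C with hD
  set S := (Finset.Ioc X (X + L)).filter (fun n => m ∣ PP A C n) with hSdef
  by_cases hne : S.Nonempty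
  swap
  · rw [Finset.not_nonempty_iff_eq_empty] at hne
    rw [hne]
    simp only [Finset.card_empty, Nat.cast_zero]
    positivity
  obtain ⟨n0, hn0⟩ := hne
  have hn0' := hn0
  rw [hSdef, Finset.mem_filter] at hn0'
  have hcast : ∀ n, m ∣ PP A C n → (m : ℤ) ∣ (n : ℤ) ^ 2 + A * n + C := by
    intro n hn
    unfold PP at hn
    exact_mod_cast hn
  -- the classifying function
  let G : ℕ → ℕ := fun n => Int.gcd (m : ℤ) ((n : ℤ) - n0)
  have hmaps : ∀ n ∈ S, G n ∈ m.divisors := by
    intro n _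
    rw [Nat.mem_divisors]
    refine ⟨?_, by omega⟩
    have : (Int.gcd (m : ℤ) ((n : ℤ) - n0) : ℤ) ∣ (m : ℤ) := Int.gcd_dvd_left ..
    exact Int.natCast_dvd_natCast.mp this
  have hcard := Finset.card_eq_sum_card_fiberwise hmaps
  have hfib : ∀ g ∈ m.divisors, (((S.filter (fun n => G n = g)).card : ℕ) : ℝ) ≤ D * (L / m + 1) := by
    intro g hg
    rw [Nat.mem_divisors] at hg
    obtain ⟨⟨h, hgh⟩, _⟩ := hg
    have hg0 : 0 < g := by
      rcases Nat.eq_zero_or_pos g with h0 | h0
      · rw [h0] at hgh; simp at hgh; omega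
      · exact h0
    have hh0 : 0 < h := by
      rcases Nat.eq_zero_or_pos h with h0 | h0
      · rw [h0] at hgh; simp at hgh; omega
      · exact h0
    set F := S.filter (fun n => G n = g) with hF
    -- congruences
    have hcong : ∀ n ∈ F, (g : ℤ) ∣ (n : ℤ) - n0 ∧ (h : ℤ) ∣ (n : ℤ) + n0 + A := by
      intro n hn
      rw [hF, Finset.mem_filter] at hn
      obtain ⟨hnS, hGn⟩ := hn
      rw [hSdef, Finset.mem_filter] at hnS
      have hgd : (g : ℤ) ∣ (n : ℤ) - n0 := by
        rw [← hGn]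
        exact Int.gcd_dvd_right ..
      refine ⟨hgd, ?_⟩
      obtain ⟨t, ht⟩ := hgd
      have hdvd : (m : ℤ) ∣ ((n : ℤ) - n0) * (n + n0 + A) := by
        have h1 := hcast n hnS.2
        have h2 := hcast n0 hn0'.2
        have h3 := dvd_sub h1 h2
        have : ((n : ℤ) ^ 2 + A * n + C) - ((n0 : ℤ) ^ 2 + A * n0 + C) =
            ((n : ℤ) - n0) * (n + n0 + A) := by ring
        rwa [this] at h3
      have hcop : IsCoprime (h : ℤ) t := by
        rw [Int.isCoprime_iff_gcd_eq_one]
        have h1 : Int.gcd (m : ℤ) ((n : ℤ) - n0) = g := hGn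
        rw [ht, hgh] at h1
        push_cast at h1
        rw [Int.gcd_mul_left, Int.natAbs_natCast] at h1
        have : g * Int.gcd (h : ℤ) t = g * 1 := by rw [h1, mul_one]
        exact Nat.eq_of_mul_eq_mul_left hg0 this
      rw [ht, hgh] at hdvd
      push_cast at hdvd
      rw [mul_assoc] at hdvd
      have h4 : (h : ℤ) ∣ t * (n + n0 + A) := by
        apply Int.dvd_of_mul_dvd_mul_left _ hdvd
        positivity
      exact hcop.dvd_of_dvd_mul_left h4
    by_cases hFne : F.Nonempty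
    swap
    · rw [Finset.not_nonempty_iff_eq_empty] at hFne
      rw [hFne]
      simp only [Finset.card_empty, Nat.cast_zero]
      positivity
    obtain ⟨n1, hn1⟩ := hFne
    have hc1 := hcong n1 hn1
    set e := Nat.gcd g h with he
    set q := Nat.lcm g h with hq
    have hq0 : 0 < q := Nat.lcm_pos hg0 hh0
    have heq : e * q = m := by rw [he, hq, Nat.gcd_mul_lcm, hgh]
    have he2 : (e : ℤ) ∣ 2 * n0 + A := by
      have h1 : (e : ℤ) ∣ (n1 : ℤ) - n0 := dvd_trans (by exact_mod_cast Nat.gcd_dvd_left g h) hc1.1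
      have h2 : (e : ℤ) ∣ (n1 : ℤ) + n0 + A :=
        dvd_trans (by exact_mod_cast Nat.gcd_dvd_right g h) hc1.2
      have h3 := dvd_sub h2 h1
      have : ((n1 : ℤ) + n0 + A) - ((n1 : ℤ) - n0) = 2 * n0 + A := by ring
      rwa [this] at h3
    have hee : (e : ℤ) * e ∣ (A : ℤ) ^ 2 - 4 * C := by
      have h1 : (e : ℤ) * e ∣ (2 * n0 + A) * (2 * n0 + A) := mul_dvd_mul he2 he2
      have h2 : (e : ℤ) * e ∣ m := by
        have : e * e ∣ g * h := mul_dvd_mul (Nat.gcd_dvd_left g h) (Nat.gcd_dvd_right g h)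
        rw [← hgh] at this
        exact_mod_cast this
      have h3 := hcast n0 hn0'.2
      have h4 : (e : ℤ) * e ∣ 4 * ((n0 : ℤ) ^ 2 + A * n0 + C) :=
        dvd_mul_of_dvd_right (dvd_trans h2 h3) 4
      have h5 := dvd_sub h1 h4
      have : (2 * n0 + A) * (2 * n0 + A) - 4 * ((n0 : ℤ) ^ 2 + A * n0 + C) = A ^ 2 - 4 * C := by
        ring
      rwa [this] at h5
    have hee' : e * e ≤ D := by
      have : e * e ∣ D := by
        rw [hD]
        unfold DD
        have := Int.natAbs_dvd_natAbs.mpr hee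
        rwa [Int.natAbs_mul, Int.natAbs_natCast] at this
      exact Nat.le_of_dvd hDpos this
    have hele : e ≤ D := by
      have he1 : 1 ≤ e := Nat.gcd_pos_of_pos_left _ hg0
      have : e * 1 ≤ e * e := Nat.mul_le_mul_left _ he1
      omega
    have hmq : m ≤ D * q := by
      rw [← heq]
      exact Nat.mul_le_mul_right _ hele
    have hFc := card_congr_le X L q hq0 F (by
        intro n hn
        rw [hF, Finset.mem_filter] at hn
        have := hn.1
        rw [hSdef, Finset.mem_filter, Finset.mem_Ioc] at this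
        exact this.1) (by
        intro a ha b hb
        have h1 := hcong a ha
        have h2 := hcong b hb
        have h3 : (g : ℤ) ∣ (a : ℤ) - b := by
          have := dvd_sub h1.1 h2.1
          have h' : ((a : ℤ) - n0) - ((b : ℤ) - n0) = a - b := by ring
          rwa [h'] at this
        have h4 : (h : ℤ) ∣ (a : ℤ) - b := by
          have := dvd_sub h1.2 h2.2
          have h' : ((a : ℤ) + n0 + A) - ((b : ℤ) + n0 + A) = a - b := by ring
          rwa [h'] at this
        rw [Int.natCast_dvd] at h3 h4 ⊢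
        exact Nat.lcm_dvd h3 h4)
    have h1 : ((F.card : ℕ) : ℝ) ≤ (L : ℝ) / q + 1 := by
      calc ((F.card : ℕ) : ℝ) ≤ ((L / q + 1 : ℕ) : ℝ) := by exact_mod_cast hFc
        _ = ((L / q : ℕ) : ℝ) + 1 := by push_cast; ring
        _ ≤ (L : ℝ) / q + 1 := by
          have := @Nat.cast_div_le ℝ _ _ _ L q
          linarith
    have hmR : (0 : ℝ) < m := by exact_mod_cast hm
    have hqR : (0 : ℝ) < q := by exact_mod_cast hq0
    have hdR : (1 : ℝ) ≤ D := by exact_mod_cast hDpos
    have h2 : (L : ℝ) / q ≤ D * (L / m) := by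
      have h3 : (m : ℝ) ≤ D * q := by exact_mod_cast hmq
      rw [div_le_iff₀ hqR]
      have h6 : (D : ℝ) * (L / m) * q = L * ((D * q) / m) := by
        field_simp
      rw [h6]
      have h7 : 1 ≤ (D * q : ℝ) / m := by
        rw [le_div_iff₀ hmR]; linarith
      have hL : (0 : ℝ) ≤ L := by positivity
      nlinarith
    calc ((F.card : ℕ) : ℝ) ≤ (L : ℝ) / q + 1 := h1
      _ ≤ D * (L / m) + D := by linarith
      _ = D * (L / m + 1) := by ring
  rw [hcard]
  push_cast
  calc ∑ g ∈ m.divisors, ((S.filter (fun n => G n = g)).card : ℝ)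
      ≤ ∑ g ∈ m.divisors, (D : ℝ) * (L / m + 1) := Finset.sum_le_sum hfib
    _ = D * tau m * (L / m + 1) := by
      rw [Finset.sum_const, nsmul_eq_mul]
      unfold tau
      ring

/-- second moment of the divisor function along `n^2+A n+C`. -/
lemma second_moment (A C X : ℕ) (hd : A ^ 2 ≠ 4 * C) (hC : 1 ≤ C) :
    ∑ n ∈ Finset.Ioc X (X + X), (tau (PP A C n) : ℝ) ^ 2 ≤
      4 * DD A C * (3 * X + A + C) * (1 + Real.log ((2 * X + A + C : ℕ) : ℝ)) ^ 32 := by
  classical
  set Z := 2 * X + A + C with hZ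
  have h1 : ∀ n ∈ Finset.Ioc X (X + X), (tau (PP A C n) : ℝ) ^ 2 ≤
      ∑ m ∈ Finset.Icc 1 Z, if m ∣ PP A C n then 4 * (tau m : ℝ) ^ 4 else 0 := by
    intro n hn
    rw [Finset.mem_Ioc] at hn
    obtain ⟨m, hmd, hmm, ht⟩ := exists_small_divisor (PP A C n) (by unfold PP; omega)
    have hm0 : 1 ≤ m := by
      rcases Nat.eq_zero_or_pos m with h | h
      · rw [h] at hmd
        have := Nat.eq_zero_of_zero_dvd hmd
        unfold PP at this
        omega
      · exact h
    have hmZ : m ≤ Z := by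
      by_contra hcon
      push Not at hcon
      have h2 : (Z + 1) * (Z + 1) ≤ m * m := Nat.mul_le_mul hcon hcon
      have h3 : n ^ 2 ≤ (X + X) ^ 2 := Nat.pow_le_pow_left hn.2 2
      have h4 : A * n ≤ A * (X + X) := Nat.mul_le_mul_left _ hn.2
      unfold PP at hmm
      rw [hZ] at h2
      nlinarith
    have h4 : (tau (PP A C n) : ℝ) ≤ 2 * (tau m : ℝ) ^ 2 := by exact_mod_cast ht
    have h5 : (tau (PP A C n) : ℝ) ^ 2 ≤ 4 * (tau m : ℝ) ^ 4 := by
      calc (tau (PP A C n) : ℝ) ^ 2 ≤ (2 * (tau m : ℝ) ^ 2) ^ 2 :=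
            pow_le_pow_left₀ (by positivity) h4 2
        _ = 4 * (tau m : ℝ) ^ 4 := by ring
    refine h5.trans ?_
    have h6 := Finset.single_le_sum
      (f := fun m => if m ∣ PP A C n then 4 * (tau m : ℝ) ^ 4 else 0)
      (s := Finset.Icc 1 Z) (by intro i _; positivity) (Finset.mem_Icc.mpr ⟨hm0, hmZ⟩)
    simp only [hmd, if_true] at h6
    exact h6
  refine (Finset.sum_le_sum h1).trans ?_
  rw [Finset.sum_comm]
  have h2 : ∀ m ∈ Finset.Icc 1 Z, (∑ n ∈ Finset.Ioc X (X + X),
      if m ∣ PP A C n then 4 * (tau m : ℝ) ^ 4 else 0) ≤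
      4 * DD A C * (3 * X + A + C) * ((tau m : ℝ) ^ 5 / m) := by
    intro m hm
    rw [Finset.mem_Icc] at hm
    rw [← Finset.sum_filter, Finset.sum_const, nsmul_eq_mul]
    have h3 := card_dvd_PP A C m X X hd hm.1
    have hmR : (0 : ℝ) < m := by exact_mod_cast hm.1
    have h4 : (X : ℝ) / m + 1 ≤ (3 * X + A + C) / m := by
      rw [div_add_one hmR.ne', div_le_div_iff_of_pos_right hmR]
      have : (m : ℝ) ≤ 2 * X + A + C := by exact_mod_cast hm.2
      linarith
    calc (((Finset.Ioc X (X + X)).filter (fun n => m ∣ PP A C n)).card : ℝ) * (4 * (tau m : ℝ) ^ 4)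
        ≤ (DD A C * tau m * (X / m + 1)) * (4 * (tau m : ℝ) ^ 4) :=
          mul_le_mul_of_nonneg_right h3 (by positivity)
      _ ≤ (DD A C * tau m * ((3 * X + A + C) / m)) * (4 * (tau m : ℝ) ^ 4) := by
          apply mul_le_mul_of_nonneg_right _ (by positivity)
          exact mul_le_mul_of_nonneg_left h4 (by positivity)
      _ = 4 * DD A C * (3 * X + A + C) * ((tau m : ℝ) ^ 5 / m) := by ring
  refine (Finset.sum_le_sum h2).trans ?_
  rw [← Finset.mul_sum]
  apply mul_le_mul_of_nonneg_left _ (by positivity)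
  have := tsm_le 5 Z
  norm_num at this
  exact this

end H359R3
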