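import Pool.Agent.H359R3.Count

/-! Unimodular pairs of vectors and the form `x^2 + A x y + C y^2`. -/

namespace H359R3

open Finset H359R2

/-- the form -/
def Nm (A C a b : ℕ) : ℕ := a ^ 2 + A * (a * b) + C * b ^ 2

/-- the associated bilinear expression -/
def dt (A C a b c e : ℕ) : ℕ := a * c + A * (b * c) + C * (b * e)

lemma nm_mul_nm (A C a b c e : ℕ) (h : a * e = b * c + 1) :
    Nm A C a b * Nm A C c e = PP A C (dt A C a b c e) := by
  unfold Nm dt PP
  zify at h ⊢
  have hδ : (a : ℤ) * e - b * c = 1 := by rw [h]; ring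
  have h0 : ((a : ℤ) ^ 2 + A * (a * b) + C * b ^ 2) * (c ^ 2 + A * (c * e) + C * e ^ 2) =
      (a * c + A * (b * c) + C * (b * e)) ^ 2 +
        A * ((a * c + A * (b * c) + C * (b * e)) * (a * e - b * c)) + C * (a * e - b * c) ^ 2 := by
    ring
  rw [h0, hδ]
  ring

lemma nm_pos {A C a b : ℕ} (hd : 1 ≤ C) (h : ¬(a = 0 ∧ b = 0)) : 0 < Nm A C a b := by
  unfold Nm
  rcases Nat.eq_zero_or_pos a with ha | ha
  · have hb : 0 < b := by
      rcases Nat.eq_zero_or_pos b with hb | hb
      · exact absurd ⟨ha, hb⟩ h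
      · exact hb
    positivity
  · positivity

/-- first vector of an edge is non-zero -/
lemma edge_left_ne {a b c e : ℕ} (h : a * e = b * c + 1) : ¬(a = 0 ∧ b = 0) := by
  rintro ⟨rfl, rfl⟩
  simp at h

lemma edge_right_ne {a b c e : ℕ} (h : a * e = b * c + 1) : ¬(c = 0 ∧ e = 0) := by
  rintro ⟨rfl, rfl⟩
  simp at h

/-- crossing lemma: two vectors of the quadrant with the same norm `M`, `M` dividing the
determinant, the determinant being nonnegative. -/
lemma cross_zero (A C a b a' b' M : ℤ) (hC : 1 ≤ C) (hA : 0 ≤ A)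
    (ha : 0 ≤ a) (hb : 0 ≤ b) (ha' : 0 ≤ a') (hb' : 0 ≤ b')
    (hane : a ≠ 0) (hane' : a' ≠ 0)
    (hM : M = a ^ 2 + A * (a * b) + C * b ^ 2) (hM' : M = a' ^ 2 + A * (a' * b') + C * b' ^ 2)
    (hMpos : 0 < M) (hdiv : M ∣ a * b' - a' * b) (hnn : 0 ≤ a * b' - a' * b) :
    a * b' - a' * b = 0 := by
  by_contra hne
  obtain ⟨t, ht⟩ := hdiv
  have ht0 : 1 ≤ t := by
    by_contra hcon
    push Not at hcon
    have : M * t ≤ 0 := by nlinarith
    have h2 : a * b' - a' * b = 0 := by linarith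
    exact hne h2
  -- D (u,u')
  have haa0 : 0 ≤ a * a' := mul_nonneg ha ha'
  have hbb0 : 0 ≤ b * b' := mul_nonneg hb hb'
  have hba0 : 0 ≤ b * a' := mul_nonneg hb ha'
  set D := a * a' + A * (b * a') + C * (b * b') with hD
  have hD0 : 0 ≤ D := by
    have h1 : 0 ≤ A * (b * a') := mul_nonneg hA hba0
    have h2 : 0 ≤ C * (b * b') := mul_nonneg (by linarith) hbb0
    linarith
  have hid : M ^ 2 = D ^ 2 + A * (D * (M * t)) + C * (M * t) ^ 2 := by
    rw [← ht]
    have : M ^ 2 = (a ^ 2 + A * (a * b) + C * b ^ 2) * (a' ^ 2 + A * (a' * b') + C * b' ^ 2) := by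
      rw [← hM, ← hM']; ring
    rw [this, hD]
    ring
  have h1 : 0 ≤ A * (D * (M * t)) := by positivity
  have h2 : M ^ 2 ≤ C * (M * t) ^ 2 := by
    have e1 : M ≤ M * t := by nlinarith
    have e2 : M ^ 2 ≤ (M * t) ^ 2 := pow_le_pow_left₀ hMpos.le e1 2
    have e3 : 0 ≤ (M * t) ^ 2 := by positivity
    nlinarith
  have hDsq : D ^ 2 = 0 := by
    have : 0 ≤ D ^ 2 := by positivity
    linarith
  have hDz : D = 0 := pow_eq_zero_iff (two_ne_zero) |>.mp hDsq
  have h3 : 0 ≤ A * (b * a') := mul_nonneg hA hba0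
  have h4 : 0 ≤ C * (b * b') := mul_nonneg (by linarith) hbb0
  have haa : a * a' = 0 := by linarith
  rcases mul_eq_zero.mp haa with h | h
  · exact hane h
  · exact hane' h

lemma edge_unique_int (A C n a b c e a' b' c' e' M : ℤ) (hC : 1 ≤ C) (hA : 0 ≤ A)
    (ha : 0 ≤ a) (hb : 0 ≤ b) (hc : 0 ≤ c) (ha' : 0 ≤ a') (hb' : 0 ≤ b') (hc' : 0 ≤ c')
    (h : a * e = b * c + 1) (h' : a' * e' = b' * c' + 1)
    (hn : a * c + A * (b * c) + C * (b * e) = n) (hn' : a' * c' + A * (b' * c') + C * (b' * e') = n)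
    (hD : M = a ^ 2 + A * (a * b) + C * b ^ 2) (hD' : M = a' ^ 2 + A * (a' * b') + C * b' ^ 2)
    (hDpos : 0 < M) :
    a = a' ∧ b = b' ∧ c = c' ∧ e = e' := by
  have hcop : IsCoprime a b := ⟨e, -c, by linarith⟩
  have hcop' : IsCoprime a' b' := ⟨e', -c', by linarith⟩
  have hbc0 : 0 ≤ b * c := mul_nonneg hb hc
  have hbc0' : 0 ≤ b' * c' := mul_nonneg hb' hc'
  have ha0 : a ≠ 0 := by
    rintro rfl
    linarith
  have ha0' : a' ≠ 0 := by
    rintro rfl
    linarith
  -- v is determined by u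
  have e1 : a + b * (n + A) = M * e := by
    rw [← hn, hD]; linear_combination (-a - A * b) * h
  have e2 : a * n - C * b = M * c := by rw [← hn, hD]; linear_combination (C * b) * h
  have e1' : a' + b' * (n + A) = M * e' := by
    rw [← hn', hD']; linear_combination (-a' - A * b') * h'
  have e2' : a' * n - C * b' = M * c' := by
    rw [← hn', hD']; linear_combination (C * b') * h'
  have hdiv : M ∣ a * b' - a' * b :=
    ⟨e * b' - e' * b, by linear_combination b' * e1 - b * e1'⟩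
  have hcross : a * b' - a' * b = 0 := by
    rcases le_total 0 (a * b' - a' * b) with hs | hs
    · exact cross_zero A C a b a' b' M hC hA ha hb ha' hb' ha0 ha0' hD hD' hDpos hdiv hs
    · have hdiv2 : M ∣ a' * b - a * b' := by
        have := (dvd_neg (a := M) (b := a * b' - a' * b)).mpr hdiv
        have h3 : -(a * b' - a' * b) = a' * b - a * b' := by ring
        rwa [h3] at this
      have := cross_zero A C a' b' a b M hC hA ha' hb' ha hb ha0' ha0 hD' hD hDpos hdiv2 (by linarith)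
      linarith
  -- a b' = a' b with coprime entries
  have hda : a ∣ a' := hcop.dvd_of_dvd_mul_right (⟨b', by linarith⟩ : a ∣ a' * b)
  have hda' : a' ∣ a := hcop'.dvd_of_dvd_mul_right (⟨b, by linarith⟩ : a' ∣ a * b')
  have haeq : a = a' := Int.dvd_antisymm ha ha' hda hda'
  subst haeq
  have hbeq : b = b' := by
    have : a * (b' - b) = 0 := by linarith
    rcases mul_eq_zero.mp this with h1 | h1
    · exact absurd h1 ha0
    · linarith
  subst hbeq
  have hDne : M ≠ 0 := hDpos.ne'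
  have heeq : e = e' := mul_left_cancel₀ hDne (by linarith)
  have hceq : c = c' := mul_left_cancel₀ hDne (by linarith)
  exact ⟨rfl, rfl, hceq, heeq⟩

/-- Edges with given bilinear value and given norm of the left vector coincide. -/
lemma edge_unique (A C n : ℕ) (hd : 1 ≤ C) (a b c e a' b' c' e' : ℕ)
    (h : a * e = b * c + 1) (h' : a' * e' = b' * c' + 1)
    (hn : dt A C a b c e = n) (hn' : dt A C a' b' c' e' = n)
    (hN : Nm A C a b = Nm A C a' b') : a = a' ∧ b = b' ∧ c = c' ∧ e = e' := by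
  have hpos : 0 < Nm A C a b := nm_pos hd (edge_left_ne h)
  unfold Nm at hN hpos
  unfold dt at hn hn'
  have := edge_unique_int A C n a b c e a' b' c' e' ((a ^ 2 + A * (a * b) + C * b ^ 2 : ℕ) : ℤ)
    (by exact_mod_cast hd) (by positivity) (by positivity) (by positivity) (by positivity)
    (by positivity) (by positivity) (by positivity) (by exact_mod_cast h) (by exact_mod_cast h')
    (by exact_mod_cast hn) (by exact_mod_cast hn') (by push_cast; ring)
    (by exact_mod_cast hN) (by exact_mod_cast hpos)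
  obtain ⟨h1, h2, h3, h4⟩ := this
  exact ⟨by exact_mod_cast h1, by exact_mod_cast h2, by exact_mod_cast h3, by exact_mod_cast h4⟩

/-- Any finite set of edges with bilinear value `n` has at most `tau (P n)` elements. -/
lemma edges_card_le (A C n : ℕ) (hd : 1 ≤ C) (S : Finset (ℕ × ℕ × ℕ × ℕ))
    (hS : ∀ x ∈ S, x.1 * x.2.2.2 = x.2.1 * x.2.2.1 + 1 ∧
      dt A C x.1 x.2.1 x.2.2.1 x.2.2.2 = n) : S.card ≤ tau (PP A C n) := by
  classical
  unfold tau
  apply Finset.card_le_card_of_injOn (fun x => Nm A C x.1 x.2.1)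
  · intro x hx
    have hx' := hS x hx
    simp only [Finset.mem_coe, Nat.mem_divisors]
    refine ⟨⟨Nm A C x.2.2.1 x.2.2.2, ?_⟩, by unfold PP; omega⟩
    rw [nm_mul_nm A C _ _ _ _ hx'.1, hx'.2]
  · intro x hx y hy hxy
    have hx' := hS x hx
    have hy' := hS y hy
    have := edge_unique A C n hd _ _ _ _ _ _ _ _ hx'.1 hy'.1 hx'.2 hy'.2 hxy
    obtain ⟨h1, h2, h3, h4⟩ := this
    exact Prod.ext h1 (Prod.ext h2 (Prod.ext h3 h4))

end H359R3
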