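import Pool.Agent.H359R3.Geo

/-! The rigidity theorem. -/

namespace H359R3

open Finset H359R2

/-- If `f(n^2+d) = 1` only for a sparse set of `n`, then `f` vanishes on all values of the form. -/
theorem rigidity_zero (A C : ℕ) (hd : 1 ≤ C) (f : ℕ → ZMod 2)
    (hf : ∀ m n : ℕ, m ≠ 0 → n ≠ 0 → f (m * n) = f m + f n)
    (hsum : Summable (wt A C {n | f (PP A C n) ≠ 0})) (a b : ℕ) (hab : ¬(a = 0 ∧ b = 0)) :
    f (Nm A C a b) = 0 := by
  set B : Set ℕ := {n | f (PP A C n) ≠ 0} with hB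
  have hB0 : ∀ n, n ∉ B → f (PP A C n) = 0 := by
    intro n hn
    rw [hB, Set.mem_ofPred_eq, not_not] at hn
    exact hn
  obtain ⟨Y, M0, hY, hM0, hgood⟩ := exists_good A C hd B hsum
  apply all_zero hd hf _ a b hab
  apply eventually_zero hd hf M0
  intro n hn
  by_contra hne
  have hfn : f (PP A C n) = 1 := by
    generalize f (PP A C n) = z at hne
    revert z; decide
  obtain ⟨x, hx1, hx2, hNx, hA1, hA2, a', b', c', e', p, q, p', q', hYd, hedge, hp, hq, hp', hq',
    h1, h2, h3, h4⟩ := hgood n 1 le_rfl (by omega)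
  have hD1 := descent_zero hd hf hB0 hA1 (p + q) a' b' c' e' p q le_rfl hedge hYd hp hq h1 h2
  have hD2 := descent_zero hd hf hB0 hA2 (p' + q') a' b' c' e' p' q' le_rfl hedge hYd hp' hq' h3 h4
  have hNg : Nm A C n 1 = PP A C n := by unfold Nm PP; ring
  have hx0 : Nm A C x.1 x.2 ≠ 0 := (nm_pos hd (by omega)).ne'
  rw [hNx, hNg, hf _ _ (by unfold PP; omega) hx0, hfn, hD1.1] at hD2
  have := hD2.1
  generalize f (Nm A C a' b') = z at this
  revert z; decide

/-- It is impossible that `f(n^2+d) = 0` only for a sparse set of `n`. -/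
theorem rigidity_one (A C : ℕ) (hd : 1 ≤ C) (f : ℕ → ZMod 2)
    (hf : ∀ m n : ℕ, m ≠ 0 → n ≠ 0 → f (m * n) = f m + f n)
    (hsum : Summable (wt A C {n | f (PP A C n) ≠ 1})) : False := by
  set B : Set ℕ := {n | f (PP A C n) ≠ 1} with hB
  have hB0 : ∀ n, n ∉ B → f (PP A C n) = 1 := by
    intro n hn
    rw [hB, Set.mem_ofPred_eq, not_not] at hn
    exact hn
  obtain ⟨Y, M0, hY, hM0, hgood⟩ := exists_good A C hd B hsum
  obtain ⟨x, hx1, hx2, hNx, hA1, hA2, a', b', c', e', p, q, p', q', hYd, hedge, hp, hq, hp', hq',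
    h1, h2, h3, h4⟩ := hgood M0 1 le_rfl (by omega)
  exact descent_one hd hf hB0 hA1 (p + q) a' b' c' e' p q le_rfl hedge hYd hp hq h1 h2

end H359R3
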