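import Mathlib

/-! Existence of a prime `q` and a representation showing that a completely additive function
modulo two, equal to `1` at primes, cannot vanish on a form of non-square discriminant. -/

namespace H359R3

lemma exists_sqrt_mod (D : ℤ) (q : ℕ) (hq : q.Prime) (hq1 : q % (4 * D.natAbs) = 1)
    (hD : D ≠ 0) (hqD : ¬ (q : ℤ) ∣ D) : ∃ t : ℤ, (q : ℤ) ∣ t ^ 2 - D := by
  have : Fact q.Prime := ⟨hq⟩
  have hDn : 0 < D.natAbs := Int.natAbs_pos.mpr hD
  have hodd : Odd q := by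
    rw [Nat.odd_iff]
    have h2 : q % (4 * D.natAbs) % 2 = q % 2 := Nat.mod_mod_of_dvd q ⟨2 * D.natAbs, by ring⟩
    rw [← h2, hq1]
  have hJ : jacobiSym D q = 1 := by
    rw [jacobiSym.mod_right D hodd, hq1]
    exact jacobiSym.one_right D
  rw [← jacobiSym.legendreSym.to_jacobiSym] at hJ
  have hne : ((D : ℤ) : ZMod q) ≠ 0 := by
    intro h
    rw [ZMod.intCast_zmod_eq_zero_iff_dvd] at h
    exact hqD h
  rw [legendreSym.eq_one_iff q hne] at hJ
  obtain ⟨r, hr⟩ := hJ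
  obtain ⟨t, ht⟩ := ZMod.intCast_surjective r
  refine ⟨t, ?_⟩
  rw [← ZMod.intCast_zmod_eq_zero_iff_dvd]
  push_cast
  rw [ht, hr]
  ring

lemma isSquare_of_sq_eq {D x y : ℤ} (h : x ^ 2 = D * y ^ 2) (hy : y ≠ 0) : IsSquare D := by
  have hdvd : y ^ 2 ∣ x ^ 2 := ⟨D, by rw [h]; ring⟩
  rw [Int.pow_dvd_pow_iff two_ne_zero] at hdvd
  obtain ⟨r, hr⟩ := hdvd
  refine ⟨r, ?_⟩
  rw [hr] at h
  have h2 : y ^ 2 * (r * r - D) = 0 := by linear_combination h
  rcases mul_eq_zero.mp h2 with h3 | h3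
  · exact absurd (pow_eq_zero_iff two_ne_zero |>.mp h3) hy
  · linarith

lemma exists_repr (D : ℤ) (hD2 : 2 ≤ D.natAbs) (hsq : ¬ IsSquare D) :
    ∃ q : ℕ, q.Prime ∧ ∃ x y z : ℤ,
      (x ^ 2 - D * y ^ 2 = q * z ^ 2 ∧ z ≠ 0) ∨ (x ^ 2 - D * y ^ 2 = q * (z ^ 2 - D)) := by
  classical
  set d := D.natAbs with hd
  obtain ⟨q, hq, hqgt, hqmod⟩ := Nat.exists_prime_gt_modEq_one d (k := 4 * d) (by omega)
  have hq1 : q % (4 * d) = 1 := by
    have h1 : (1 : ℕ) % (4 * d) = 1 := Nat.mod_eq_of_lt (by omega)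
    rw [Nat.ModEq, h1] at hqmod
    exact hqmod
  have hD0 : D ≠ 0 := by
    rintro rfl
    simp at hd
    omega
  have hdpos : (0 : ℤ) < d := by omega
  have hqD : ¬ (q : ℤ) ∣ D := by
    intro h
    have := Int.natAbs_dvd_natAbs.mpr h
    rw [Int.natAbs_natCast] at this
    have := Nat.le_of_dvd (by omega) this
    omega
  obtain ⟨t, ht⟩ := exists_sqrt_mod D q hq hq1 hD0 hqD
  have : NeZero d := ⟨by omega⟩
  have : NeZero q := ⟨hq.ne_zero⟩
  set a1 := Nat.sqrt (d * q) with ha1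
  set a2 := Nat.sqrt q with ha2
  set a3 := Nat.sqrt d with ha3
  let S : Finset (ℕ × ℕ × ℕ) :=
    Finset.range (a1 + 1) ×ˢ Finset.range (a2 + 1) ×ˢ Finset.range (a3 + 1)
  let φ : ℕ × ℕ × ℕ → ZMod d × ZMod q := fun p =>
    (((((p.1 : ℤ) - p.2.2 : ℤ)) : ZMod d), ((((p.1 : ℤ) - t * p.2.1 : ℤ)) : ZMod q))
  have hcard : (Finset.univ : Finset (ZMod d × ZMod q)).card < S.card := by
    rw [Finset.card_univ, Fintype.card_prod, ZMod.card, ZMod.card]
    simp only [S, Finset.card_product, Finset.card_range]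
    have e1 : d * q < (a1 + 1) * (a1 + 1) := Nat.lt_succ_sqrt _
    have e2 : q < (a2 + 1) * (a2 + 1) := Nat.lt_succ_sqrt _
    have e3 : d < (a3 + 1) * (a3 + 1) := Nat.lt_succ_sqrt _
    by_contra hcon
    push Not at hcon
    have h1 : ((a1 + 1) * ((a2 + 1) * (a3 + 1))) * ((a1 + 1) * ((a2 + 1) * (a3 + 1))) ≤
        (d * q) * (d * q) := Nat.mul_le_mul hcon hcon
    have h2 : (d * q) * (q * d) < ((a1 + 1) * (a1 + 1)) * (((a2 + 1) * (a2 + 1)) * ((a3 + 1) * (a3 + 1))) := by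
      calc (d * q) * (q * d) < ((a1 + 1) * (a1 + 1)) * (q * d) :=
            Nat.mul_lt_mul_of_pos_right e1 (Nat.mul_pos hq.pos (by omega))
        _ ≤ _ := Nat.mul_le_mul_left _ (Nat.mul_le_mul e2.le e3.le)
    nlinarith
  obtain ⟨p1, hp1, p2, hp2, hne, heq⟩ := Finset.exists_ne_map_eq_of_card_lt_of_maps_to hcard
    (f := φ) (fun _ _ => Finset.mem_univ _)
  simp only [S, Finset.mem_product, Finset.mem_range] at hp1 hp2
  obtain ⟨x1, y1, z1⟩ := p1
  obtain ⟨x2, y2, z2⟩ := p2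
  simp only [φ, Prod.mk.injEq] at heq hp1 hp2
  obtain ⟨heq1, heq2⟩ := heq
  set x : ℤ := (x1 : ℤ) - x2 with hx
  set y : ℤ := (y1 : ℤ) - y2 with hy
  set z : ℤ := (z1 : ℤ) - z2 with hz
  have hdx : (d : ℤ) ∣ x - z := by
    rw [← ZMod.intCast_zmod_eq_zero_iff_dvd]
    have : x - z = ((x1 : ℤ) - z1) - ((x2 : ℤ) - z2) := by rw [hx, hz]; ring
    rw [this, Int.cast_sub, heq1, sub_self]
  have hqx : (q : ℤ) ∣ x - t * y := by
    rw [← ZMod.intCast_zmod_eq_zero_iff_dvd]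
    have : x - t * y = ((x1 : ℤ) - t * y1) - ((x2 : ℤ) - t * y2) := by rw [hx, hy]; ring
    rw [this, Int.cast_sub, heq2, sub_self]
  have hnz : ¬ (x = 0 ∧ y = 0 ∧ z = 0) := by
    rintro ⟨h1, h2, h3⟩
    apply hne
    have e1 : x1 = x2 := by omega
    have e2 : y1 = y2 := by omega
    have e3 : z1 = z2 := by omega
    rw [e1, e2, e3]
  have hxle : x ^ 2 ≤ d * q := by
    have h1 : a1 * a1 ≤ d * q := Nat.sqrt_le _
    have h2 : |x| ≤ a1 := by rw [abs_le]; constructor <;> omega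
    have h3 : x ^ 2 ≤ (a1 : ℤ) ^ 2 := sq_le_sq' (by have := abs_le.mp h2; omega) (by have := abs_le.mp h2; omega)
    have h4 : ((a1 * a1 : ℕ) : ℤ) ≤ ((d * q : ℕ) : ℤ) := by exact_mod_cast h1
    push_cast at h4
    nlinarith
  have hyle : y ^ 2 ≤ q := by
    have h1 : a2 * a2 ≤ q := Nat.sqrt_le _
    have h2 : |y| ≤ a2 := by rw [abs_le]; constructor <;> omega
    have h3 : y ^ 2 ≤ (a2 : ℤ) ^ 2 := sq_le_sq' (by have := abs_le.mp h2; omega) (by have := abs_le.mp h2; omega)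
    have h4 : ((a2 * a2 : ℕ) : ℤ) ≤ ((q : ℕ) : ℤ) := by exact_mod_cast h1
    push_cast at h4
    nlinarith
  have hzle : z ^ 2 ≤ d := by
    have h1 : a3 * a3 ≤ d := Nat.sqrt_le _
    have h2 : |z| ≤ a3 := by rw [abs_le]; constructor <;> omega
    have h3 : z ^ 2 ≤ (a3 : ℤ) ^ 2 := sq_le_sq' (by have := abs_le.mp h2; omega) (by have := abs_le.mp h2; omega)
    have h4 : ((a3 * a3 : ℕ) : ℤ) ≤ ((d : ℕ) : ℤ) := by exact_mod_cast h1
    push_cast at h4
    nlinarith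
  have hqpr : Prime (q : ℤ) := Nat.prime_iff_prime_int.mp hq
  have hqd : ¬ (q : ℤ) ∣ d := by
    intro h
    apply hqD
    rw [hd] at h
    exact Int.dvd_natAbs.mp h
  have hxlt : x ^ 2 < d * q := by
    rcases hxle.lt_or_eq with h | h
    · exact h
    · exfalso
      have h1 : (q : ℤ) ∣ x ^ 2 := ⟨d, by rw [h]; ring⟩
      have h2 := hqpr.dvd_of_dvd_pow h1
      obtain ⟨r, hr⟩ := h2
      rw [hr] at h
      have h3 : (q : ℤ) * (q * r ^ 2 - d) = 0 := by linear_combination h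
      rcases mul_eq_zero.mp h3 with h4 | h4
      · have := hq.pos; omega
      · exact hqd ⟨r ^ 2, by linarith⟩
  have hylt : y ^ 2 < q := by
    rcases hyle.lt_or_eq with h | h
    · exact h
    · exfalso
      have h1 : (q : ℤ) ∣ y ^ 2 := ⟨1, by rw [h]; ring⟩
      have h2 := hqpr.dvd_of_dvd_pow h1
      obtain ⟨r, hr⟩ := h2
      rw [hr] at h
      have h3 : (q : ℤ) * (q * r ^ 2 - 1) = 0 := by linear_combination h
      rcases mul_eq_zero.mp h3 with h4 | h4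
      · have := hq.pos; omega
      · have h5 : (q : ℤ) ∣ 1 := ⟨r ^ 2, by linarith⟩
        exact hqpr.not_isUnit (isUnit_of_dvd_one h5)
  -- divisibility of V
  have hdD : (d : ℤ) ∣ D := by rw [hd]; exact Int.natAbs_dvd.mpr dvd_rfl
  have hdq1 : (d : ℤ) ∣ q - 1 := by
    have h1 : (q : ℤ) = (4 * d) * ((q / (4 * d) : ℕ) : ℤ) + 1 := by
      have := Nat.div_add_mod q (4 * d)
      rw [hq1] at this
      exact_mod_cast this.symm
    exact ⟨4 * ((q / (4 * d) : ℕ) : ℤ), by linarith⟩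
  have hV1 : (d : ℤ) ∣ x ^ 2 - D * y ^ 2 - q * z ^ 2 := by
    have : x ^ 2 - D * y ^ 2 - q * z ^ 2 = (x - z) * (x + z) - D * y ^ 2 - (q - 1) * z ^ 2 := by ring
    rw [this]
    exact dvd_sub (dvd_sub (dvd_mul_of_dvd_left hdx _) (dvd_mul_of_dvd_left hdD _))
      (dvd_mul_of_dvd_left hdq1 _)
  have hV2 : (q : ℤ) ∣ x ^ 2 - D * y ^ 2 - q * z ^ 2 := by
    have : x ^ 2 - D * y ^ 2 - q * z ^ 2 =
        (x - t * y) * (x + t * y) + (t ^ 2 - D) * y ^ 2 - q * z ^ 2 := by ring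
    rw [this]
    exact dvd_sub (dvd_add (dvd_mul_of_dvd_left hqx _) (dvd_mul_of_dvd_left ht _))
      (dvd_mul_of_dvd_left dvd_rfl _)
  have hcop : IsCoprime (d : ℤ) (q : ℤ) := ((hqpr.coprime_iff_not_dvd).mpr hqd).symm
  obtain ⟨k, hk⟩ := hcop.mul_dvd hV1 hV2
  have hqpos : (0 : ℤ) < q := by exact_mod_cast hq.pos
  have hdqpos : (0 : ℤ) < d * q := by positivity
  refine ⟨q, hq, x, y, z, ?_⟩
  rcases lt_or_gt_of_ne hD0 with hneg | hpos
  · -- D < 0
    have hDd : D = -d := by omega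
    have hb1 : x ^ 2 - D * y ^ 2 - q * z ^ 2 < 2 * (d * q) := by
      rw [hDd]
      have h1 : (d : ℤ) * y ^ 2 < d * q := mul_lt_mul_of_pos_left hylt hdpos
      have h2 : 0 ≤ (q : ℤ) * z ^ 2 := by positivity
      linarith
    have hb2 : -(d * q : ℤ) ≤ x ^ 2 - D * y ^ 2 - q * z ^ 2 := by
      rw [hDd]
      have h1 : 0 ≤ (d : ℤ) * y ^ 2 := by positivity
      have h2 : (q : ℤ) * z ^ 2 ≤ q * d := mul_le_mul_of_nonneg_left hzle hqpos.le
      have h3 : 0 ≤ x ^ 2 := by positivity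
      linarith
    rw [hk] at hb1 hb2
    have hk1 : k < 2 := by nlinarith
    have hk2 : -1 ≤ k := by nlinarith
    have hk3 : k = -1 ∨ k = 0 ∨ k = 1 := by omega
    rcases hk3 with rfl | rfl | rfl
    · exfalso
      have h1 : 0 ≤ (d : ℤ) * y ^ 2 := by positivity
      have h2 : (q : ℤ) * z ^ 2 ≤ q * d := mul_le_mul_of_nonneg_left hzle hqpos.le
      have h3 : 0 ≤ x ^ 2 := by positivity
      rw [hDd] at hk
      have h4 : x ^ 2 = 0 := by linarith
      have h5 : (q : ℤ) * (z ^ 2 - d) = 0 := by linarith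
      have h6 : x = 0 := pow_eq_zero_iff two_ne_zero |>.mp h4
      rcases mul_eq_zero.mp h5 with h7 | h7
      · omega
      · rw [h6, zero_sub, dvd_neg] at hdx
        obtain ⟨r, hr⟩ := hdx
        rw [hr] at h7
        have h8 : (d : ℤ) * (d * r ^ 2 - 1) = 0 := by linear_combination h7
        rcases mul_eq_zero.mp h8 with h9 | h9
        · omega
        · have h10 : (d : ℤ) ∣ 1 := ⟨r ^ 2, by linarith⟩
          have := Int.le_of_dvd one_pos h10
          omega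
    · left
      have h0 : x ^ 2 - D * y ^ 2 = q * z ^ 2 := by linarith
      refine ⟨h0, ?_⟩
      intro hz0
      rw [hz0, hDd] at h0
      have h1 : 0 ≤ (d : ℤ) * y ^ 2 := by positivity
      have h3 : 0 ≤ x ^ 2 := by positivity
      have h4 : x ^ 2 = 0 := by linarith
      have h5 : (d : ℤ) * y ^ 2 = 0 := by linarith
      have h6 : x = 0 := pow_eq_zero_iff two_ne_zero |>.mp h4
      have h7 : y = 0 := by
        rcases mul_eq_zero.mp h5 with h | h
        · omega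
        · exact pow_eq_zero_iff two_ne_zero |>.mp h
      exact hnz ⟨h6, h7, hz0⟩
    · right
      rw [hDd] at hk ⊢
      linarith
  · -- D > 0
    have hDd : D = d := by omega
    have hb1 : x ^ 2 - D * y ^ 2 - q * z ^ 2 < d * q := by
      rw [hDd]
      have h1 : 0 ≤ (d : ℤ) * y ^ 2 := by positivity
      have h2 : 0 ≤ (q : ℤ) * z ^ 2 := by positivity
      linarith
    have hb2 : -(2 * (d * q) : ℤ) < x ^ 2 - D * y ^ 2 - q * z ^ 2 := by
      rw [hDd]
      have h1 : (d : ℤ) * y ^ 2 < d * q := mul_lt_mul_of_pos_left hylt hdpos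
      have h2 : (q : ℤ) * z ^ 2 ≤ q * d := mul_le_mul_of_nonneg_left hzle hqpos.le
      have h3 : 0 ≤ x ^ 2 := by positivity
      linarith
    rw [hk] at hb1 hb2
    have hk1 : k < 1 := by nlinarith
    have hk2 : -2 < k := by nlinarith
    have hk3 : k = -1 ∨ k = 0 := by omega
    rcases hk3 with rfl | rfl
    · right
      rw [hDd] at hk ⊢
      linarith
    · left
      have h0 : x ^ 2 - D * y ^ 2 = q * z ^ 2 := by linarith
      refine ⟨h0, ?_⟩
      intro hz0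
      rw [hz0] at h0
      have h1 : x ^ 2 = D * y ^ 2 := by linarith
      by_cases hy0 : y = 0
      · rw [hy0] at h1
        have h2 : x ^ 2 = 0 := by linarith
        exact hnz ⟨pow_eq_zero_iff two_ne_zero |>.mp h2, hy0, hz0⟩
      · exact hsq (isSquare_of_sq_eq h1 hy0)

end H359R3
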