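import Pool.Agent.H359R3.NearSqf

/-! Main theorem for a completely additive function modulo two along `n^2+An+C`. -/

namespace H359R3

open Finset H359R2

/-- the `n` in `(X,2X]` with `P(n) = s^2 m`, `m` squarefree, `s` small and `f m = κ`. -/
def GN (A C : ℕ) (f : ℕ → ZMod 2) (κ : ZMod 2) (X : ℕ) : Set ℕ :=
  {n : ℕ | X < n ∧ n ≤ 2 * X ∧ ∃ s m : ℕ, PP A C n = s ^ 2 * m ∧ Squarefree m ∧
      (s : ℝ) ≤ Real.log X ^ 41 ∧ f m = κ}

lemma GN_finite (A C : ℕ) (f : ℕ → ZMod 2) (κ : ZMod 2) (X : ℕ) : (GN A C f κ X).Finite := by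
  apply Set.Finite.subset (Set.finite_Icc 0 (2 * X))
  intro n hn
  exact ⟨Nat.zero_le _, hn.2.1⟩

lemma cnt_le (A C : ℕ) (hC : 1 ≤ C) (hd : A ^ 2 ≠ 4 * C) (f : ℕ → ZMod 2)
    (hf : ∀ m n : ℕ, m ≠ 0 → n ≠ 0 → f (m * n) = f m + f n) (κ : ZMod 2)
    (X Z : ℕ) (hX : 3 ≤ X) :
    (cnt {n | f (PP A C n) ≠ κ + 1} X : ℝ) ≤ ((GN A C f κ X).ncard : ℝ) +
      (DD A C * X * (1 + Real.log Z) ^ 4 / (Real.log X ^ 41) + DD A C * Z * (1 + Real.log Z) ^ 4 +
        ((DD A C * (2 + A + C) + 1) * (2 + A + C) ^ 2) * (X : ℝ) ^ 2 / (Z + 1) ^ 2) := by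
  classical
  have hlog : 0 < Real.log X := Real.log_pos (by exact_mod_cast (by omega : 1 < X))
  have h1 := card_large_square A C X Z (Real.log X ^ 41) hC hd (by omega) (by positivity)
  set L := (Finset.Ioc X (X + X)).filter (fun n => ∃ s : ℕ, Real.log X ^ 41 < s ∧ s ^ 2 ∣ PP A C n)
    with hL
  have hsub : (Finset.Ioc X (X + X)).filter (fun n => n ∈ {n | f (PP A C n) ≠ κ + 1}) ⊆
      (GN_finite A C f κ X).toFinset ∪ L := by
    intro n hn
    rw [Finset.mem_filter, Finset.mem_Ioc, Set.mem_ofPred_eq] at hn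
    obtain ⟨⟨hn1, hn2⟩, hfn⟩ := hn
    obtain ⟨m, s, hms, hm⟩ := Nat.sq_mul_squarefree (PP A C n)
    rw [Finset.mem_union, Set.Finite.mem_toFinset]
    have hs0 : s ≠ 0 := by
      rintro rfl
      unfold PP at hms
      simp at hms
      omega
    by_cases hs : (s : ℝ) ≤ Real.log X ^ 41
    · left
      refine ⟨hn1, by omega, s, m, hms.symm, hm, hs, ?_⟩
      rw [← hms, pow_two, hf _ _ (mul_ne_zero hs0 hs0) hm.ne_zero, hf _ _ hs0 hs0,
        zmod2_add_self, zero_add] at hfn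
      generalize f m = z at hfn ⊢
      revert z κ
      decide
    · right
      rw [hL, Finset.mem_filter, Finset.mem_Ioc]
      push Not at hs
      exact ⟨⟨hn1, hn2⟩, s, hs, ⟨m, hms.symm⟩⟩
  have h2 : cnt {n | f (PP A C n) ≠ κ + 1} X ≤ (GN A C f κ X).ncard + L.card := by
    unfold cnt
    have h3 := (Finset.card_le_card hsub).trans (Finset.card_union_le _ _)
    rw [Set.ncard_eq_toFinset_card _ (GN_finite A C f κ X)]
    refine le_trans (le_of_eq ?_) h3
    congr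
  have h4 : (cnt {n | f (PP A C n) ≠ κ + 1} X : ℝ) ≤ ((GN A C f κ X).ncard : ℝ) + (L.card : ℝ) := by
    exact_mod_cast h2
  linarith

theorem main_gen (A C : ℕ) (hC : 1 ≤ C) (hd : A ^ 2 ≠ 4 * C) (f : ℕ → ZMod 2)
    (hf : ∀ m n : ℕ, m ≠ 0 → n ≠ 0 → f (m * n) = f m + f n) (κ : ZMod 2)
    (hκ : κ = 1 → ∃ x y : ℕ, ¬(x = 0 ∧ y = 0) ∧ f (Nm A C x y) ≠ 0) (X0 : ℕ) :
    ∃ X : ℕ, X0 ≤ X ∧ (X : ℝ) / Real.log X ^ 37 ≤ ((GN A C f κ X).ncard : ℝ) := by
  by_contra hcon
  push Not at hcon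
  have hDpos : (1 : ℝ) ≤ DD A C := by exact_mod_cast DD_pos hd
  set Kc : ℝ := (DD A C * (2 + A + C) + 1) * (2 + A + C) ^ 2 with hKc
  have hKpos : 0 < Kc := by positivity
  have hev : ∀ᶠ x : ℝ in Filter.atTop, ‖Real.log x ^ 121‖ ≤ (1 / Kc) * ‖id x‖ :=
    Real.isLittleO_pow_log_id_atTop.bound (by positivity)
  have hev2 : ∀ᶠ x : ℝ in Filter.atTop, 2 + 32 * (DD A C : ℝ) ≤ Real.log x :=
    Real.tendsto_log_atTop.eventually_ge_atTop _
  obtain ⟨x1, hx1⟩ := Filter.eventually_atTop.mp (hev.and hev2)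
  have hsp : ∀ X : ℕ, max X0 (⌈x1⌉₊ + 3) ≤ X →
      (cnt {n | f (PP A C n) ≠ κ + 1} X : ℝ) ≤ X / (Real.log X) ^ 36 := by
    intro X hX
    have hX0 : X0 ≤ X := (le_max_left _ _).trans hX
    have hX1 : ⌈x1⌉₊ + 3 ≤ X := (le_max_right _ _).trans hX
    have hxX : x1 ≤ (X : ℝ) := by
      calc x1 ≤ (⌈x1⌉₊ : ℝ) := Nat.le_ceil _
        _ ≤ X := by exact_mod_cast (by omega : ⌈x1⌉₊ ≤ X)
    obtain ⟨hA, hB⟩ := hx1 X hxX
    set L := Real.log X with hL
    have hLpos : 0 < L := by linarith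
    have hL1 : 1 ≤ L := by linarith
    have hXpos : (0 : ℝ) < X := by exact_mod_cast (by omega : 0 < X)
    rw [id, Real.norm_of_nonneg (by positivity), Real.norm_of_nonneg hXpos.le] at hA
    have hgn := hcon X hX0
    set Z := ⌊(X : ℝ) / L ^ 42⌋₊ with hZ
    have hZle : (Z : ℝ) ≤ X / L ^ 42 := Nat.floor_le (by positivity)
    have hZgt : (X : ℝ) / L ^ 42 < Z + 1 := Nat.lt_floor_add_one _
    have hZX : (Z : ℝ) ≤ X := by
      refine hZle.trans ?_
      rw [div_le_iff₀ (by positivity)]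
      have : (1 : ℝ) ≤ L ^ 42 := one_le_pow₀ (by linarith)
      nlinarith
    have hlogZ : 1 + Real.log Z ≤ 2 * L := by
      have h1 : Real.log Z ≤ L := by
        rcases Nat.eq_zero_or_pos Z with h | h
        · rw [h]; simp only [Nat.cast_zero, Real.log_zero]; linarith
        · exact Real.log_le_log (by exact_mod_cast h) hZX
      linarith
    have hlogZ0 : 0 ≤ 1 + Real.log Z := by
      have : 0 ≤ Real.log Z := Real.log_natCast_nonneg _
      linarith
    have hpow : (1 + Real.log Z) ^ 4 ≤ 16 * L ^ 4 := by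
      calc (1 + Real.log Z) ^ 4 ≤ (2 * L) ^ 4 := pow_le_pow_left₀ hlogZ0 hlogZ 4
        _ = 16 * L ^ 4 := by ring
    have hmain := cnt_le A C hC hd f hf κ X Z (by omega)
    have t1 : DD A C * X * (1 + Real.log Z) ^ 4 / (L ^ 41) ≤ 16 * DD A C * (X / L ^ 37) := by
      calc DD A C * X * (1 + Real.log Z) ^ 4 / (L ^ 41) ≤ DD A C * X * (16 * L ^ 4) / (L ^ 41) := by
            apply div_le_div_of_nonneg_right _ (by positivity)
            exact mul_le_mul_of_nonneg_left hpow (by positivity)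
        _ = 16 * DD A C * (X / L ^ 37) := by field_simp
    have t2 : DD A C * Z * (1 + Real.log Z) ^ 4 ≤ 16 * DD A C * (X / L ^ 37) := by
      calc DD A C * Z * (1 + Real.log Z) ^ 4 ≤ DD A C * (X / L ^ 42) * (16 * L ^ 4) := by
            apply mul_le_mul _ hpow (by positivity) (by positivity)
            exact mul_le_mul_of_nonneg_left hZle (by positivity)
        _ = 16 * DD A C * (X / L ^ 37) / L := by field_simp
        _ ≤ 16 * DD A C * (X / L ^ 37) := by
            apply div_le_self (by positivity)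
            linarith
    have t3 : Kc * (X : ℝ) ^ 2 / (Z + 1) ^ 2 ≤ X / L ^ 37 := by
      have h1 : (X / L ^ 42) ^ 2 ≤ ((Z : ℝ) + 1) ^ 2 :=
        pow_le_pow_left₀ (by positivity) hZgt.le 2
      calc Kc * (X : ℝ) ^ 2 / (Z + 1) ^ 2 ≤ Kc * (X : ℝ) ^ 2 / (X / L ^ 42) ^ 2 :=
            div_le_div_of_nonneg_left (by positivity) (by positivity) h1
        _ = Kc * L ^ 84 := by field_simp
        _ ≤ X / L ^ 37 := by
            rw [le_div_iff₀ (by positivity)]
            calc Kc * L ^ 84 * L ^ 37 = Kc * L ^ 121 := by ring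
              _ ≤ Kc * (1 / Kc * X) := mul_le_mul_of_nonneg_left hA hKpos.le
              _ = (X : ℝ) := by field_simp
    have hfin : (cnt {n | f (PP A C n) ≠ κ + 1} X : ℝ) ≤ (2 + 32 * DD A C) * (X / L ^ 37) := by
      have e1 : (2 + 32 * (DD A C : ℝ)) * (X / L ^ 37) =
        X / L ^ 37 + (16 * DD A C * (X / L ^ 37) + 16 * DD A C * (X / L ^ 37) + X / L ^ 37) := by ring
      rw [e1]
      refine hmain.trans ?_
      apply add_le_add hgn.le
      exact add_le_add (add_le_add t1 t2) t3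
    calc (cnt {n | f (PP A C n) ≠ κ + 1} X : ℝ) ≤ (2 + 32 * DD A C) * (X / L ^ 37) := hfin
      _ = ((2 + 32 * DD A C) / L) * (X / L ^ 36) := by field_simp
      _ ≤ 1 * (X / L ^ 36) := by
          apply mul_le_mul_of_nonneg_right _ (by positivity)
          rw [div_le_one hLpos]; linarith
      _ = X / L ^ 36 := one_mul _
  have hsum := summable_of_sparse A C hd hC _ _ hsp
  have hcases : ∀ k : ZMod 2, k = 0 ∨ k = 1 := by decide
  rcases hcases κ with rfl | rfl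
  · rw [zero_add] at hsum
    exact rigidity_one A C hC f hf hsum
  · obtain ⟨x, y, hxy, hne⟩ := hκ rfl
    have h11 : (1 : ZMod 2) + 1 = 0 := by decide
    rw [h11] at hsum
    exact hne (rigidity_zero A C hC f hf hsum x y hxy)

end H359R3
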