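import Pool.Agent.H359R3.Nonzero

/-! Main theorem for all monic quadratic integer polynomials of non-square discriminant. -/

namespace H359R3

open Finset H359R2

/-- target set -/
def QS (b c : ℤ) (f : ℕ → ZMod 2) (κ : ZMod 2) (X : ℕ) : Set ℕ :=
  {n : ℕ | X < n ∧ n ≤ 2 * X ∧ ∃ s m : ℕ, (n : ℤ) ^ 2 + b * n + c = s ^ 2 * m ∧ Squarefree m ∧
      (s : ℝ) ≤ Real.log X ^ 41 ∧ f m = κ}

lemma QS_finite (b c : ℤ) (f : ℕ → ZMod 2) (κ : ZMod 2) (X : ℕ) : (QS b c f κ X).Finite := by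
  apply Set.Finite.subset (Set.finite_Icc 0 (2 * X))
  intro n hn
  exact ⟨Nat.zero_le _, hn.2.1⟩

/-- normalising shift -/
lemma exists_shift (b c : ℤ) : ∃ (k : ℤ) (A C : ℕ), 1 ≤ C ∧ (A ≤ 1 ∨ C + 1 ≤ A) ∧
    ((A : ℤ) ^ 2 - 4 * C = b ^ 2 - 4 * c) ∧
    ∀ t : ℤ, (t + k) ^ 2 + b * (t + k) + c = t ^ 2 + A * t + C := by
  classical
  set k1 : ℤ := -(b / 2) with hk1
  have hA1 : b + 2 * k1 = b % 2 := by omega
  have hex : ∃ j : ℕ, 0 < (k1 + j) ^ 2 + b * (k1 + j) + c := by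
    refine ⟨(k1 ^ 2 + b * k1 + c).natAbs + 1, ?_⟩
    set C1 := k1 ^ 2 + b * k1 + c with hC1
    set j : ℤ := ((C1.natAbs + 1 : ℕ) : ℤ) with hj
    have h1 : (k1 + j) ^ 2 + b * (k1 + j) + c = j ^ 2 + (b + 2 * k1) * j + C1 := by
      rw [hC1]; ring
    rw [h1, hA1]
    have h2 : 0 ≤ b % 2 := by omega
    have h3 : j = |C1| + 1 := by rw [hj]; push_cast; rfl
    have h4 : -|C1| ≤ C1 := neg_abs_le C1
    have h5 : 0 ≤ |C1| := abs_nonneg C1
    have h6 : 0 ≤ b % 2 * j := by rw [h3]; positivity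
    have h7 : |C1| + 1 ≤ j ^ 2 := by rw [h3]; nlinarith
    linarith
  set j0 := Nat.find hex with hj0
  have hspec := Nat.find_spec hex
  rw [← hj0] at hspec
  set k : ℤ := k1 + j0 with hk
  have hAnn : 0 ≤ b + 2 * k := by rw [hk]; omega
  refine ⟨k, (b + 2 * k).toNat, (k ^ 2 + b * k + c).toNat, ?_, ?_, ?_, ?_⟩
  · omega
  · rcases Nat.eq_zero_or_pos j0 with h | h
    · left
      rw [h] at hk
      omega
    · right
      have hmin := Nat.find_min hex (m := j0 - 1) (by omega)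
      push Not at hmin
      have h1 : (((j0 - 1 : ℕ) : ℤ)) = j0 - 1 := by omega
      rw [h1] at hmin
      have h2 : (k1 + ((j0 : ℤ) - 1)) ^ 2 + b * (k1 + ((j0 : ℤ) - 1)) + c =
          (k ^ 2 + b * k + c) - (b + 2 * k) + 1 := by
        rw [hk]; ring
      rw [h2] at hmin
      omega
  · have e1 : (((b + 2 * k).toNat : ℕ) : ℤ) = b + 2 * k := Int.toNat_of_nonneg hAnn
    have e2 : (((k ^ 2 + b * k + c).toNat : ℕ) : ℤ) = k ^ 2 + b * k + c :=
      Int.toNat_of_nonneg hspec.le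
    rw [e1, e2]; ring
  · intro t
    have e1 : (((b + 2 * k).toNat : ℕ) : ℤ) = b + 2 * k := Int.toNat_of_nonneg hAnn
    have e2 : (((k ^ 2 + b * k + c).toNat : ℕ) : ℤ) = k ^ 2 + b * k + c :=
      Int.toNat_of_nonneg hspec.le
    rw [e1, e2]; ring

lemma GN_le_QS (b c k : ℤ) (A C : ℕ)
    (hk : ∀ t : ℤ, (t + k) ^ 2 + b * (t + k) + c = t ^ 2 + A * t + C)
    (f : ℕ → ZMod 2) (κ : ZMod 2) (X : ℕ) (hX : 1 ≤ X) :
    (GN A C f κ X).ncard ≤ (QS b c f κ (X + k.toNat)).ncard + k.natAbs := by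
  classical
  set X' := X + k.toNat with hX'
  have hsub : GN A C f κ X ⊆ ((fun n : ℕ => ((n : ℤ) - k).toNat) '' (QS b c f κ X')) ∪
      (↑(Finset.Ioc X (X + k.natAbs)) : Set ℕ) := by
    intro n hn
    obtain ⟨hn1, hn2, s, m, hsm, hm, hs, hfm⟩ := hn
    by_cases hle : n ≤ X + k.natAbs ∧ k < 0
    · right
      rw [Finset.mem_coe, Finset.mem_Ioc]
      omega
    · left
      refine ⟨((n : ℤ) + k).toNat, ?_, ?_⟩
      · have hnk : (((n : ℤ) + k).toNat : ℤ) = n + k := Int.toNat_of_nonneg (by omega)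
        refine ⟨by omega, by omega, s, m, ?_, hm, ?_, hfm⟩
        · rw [hnk, hk n]
          unfold PP at hsm
          exact_mod_cast hsm
        · refine hs.trans ?_
          apply pow_le_pow_left₀ (Real.log_natCast_nonneg _)
          apply Real.log_le_log (by exact_mod_cast hX)
          exact_mod_cast (by omega : X ≤ X')
      · simp only
        omega
  have hfin : (((fun n : ℕ => ((n : ℤ) - k).toNat) '' (QS b c f κ X')) ∪
      (↑(Finset.Ioc X (X + k.natAbs)) : Set ℕ)).Finite :=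
    ((QS_finite b c f κ X').image _).union (Finset.finite_toSet _)
  calc (GN A C f κ X).ncard ≤ (((fun n : ℕ => ((n : ℤ) - k).toNat) '' (QS b c f κ X')) ∪
      (↑(Finset.Ioc X (X + k.natAbs)) : Set ℕ)).ncard := Set.ncard_le_ncard hsub hfin
    _ ≤ ((fun n : ℕ => ((n : ℤ) - k).toNat) '' (QS b c f κ X')).ncard +
      (↑(Finset.Ioc X (X + k.natAbs)) : Set ℕ).ncard := Set.ncard_union_le _ _
    _ ≤ (QS b c f κ X').ncard + k.natAbs := by
        apply Nat.add_le_add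
        · exact Set.ncard_image_le (QS_finite b c f κ X')
        · rw [Set.ncard_coe_finset, Nat.card_Ioc]
          omega

theorem main_quad (b c : ℤ) (hsq : ¬ IsSquare (b ^ 2 - 4 * c)) (f : ℕ → ZMod 2)
    (hf : ∀ m n : ℕ, m ≠ 0 → n ≠ 0 → f (m * n) = f m + f n)
    (hprime : ∀ q : ℕ, q.Prime → f q = 1) (κ : ZMod 2) (X0 : ℕ) :
    ∃ X : ℕ, X0 ≤ X ∧ (X : ℝ) / Real.log X ^ 38 ≤ ((QS b c f κ X).ncard : ℝ) := by
  obtain ⟨k, A, C, hC, H, hdisc, hk⟩ := exists_shift b c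
  rw [← hdisc] at hsq
  have hd : A ^ 2 ≠ 4 * C := by
    intro h
    apply hsq
    have : ((A : ℤ) ^ 2 - 4 * C) = 0 := by
      have : (A : ℤ) ^ 2 = 4 * C := by exact_mod_cast h
      linarith
    rw [this]
    exact ⟨0, by ring⟩
  set K : ℝ := (k.natAbs : ℝ) + 1 with hK
  have hKpos : 0 < K := by positivity
  have hev : ∀ᶠ x : ℝ in Filter.atTop, ‖Real.log x ^ 38‖ ≤ (1 / K) * ‖id x‖ :=
    Real.isLittleO_pow_log_id_atTop.bound (by positivity)
  have hev2 : ∀ᶠ x : ℝ in Filter.atTop, 3 ≤ Real.log x :=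
    Real.tendsto_log_atTop.eventually_ge_atTop _
  obtain ⟨x1, hx1⟩ := Filter.eventually_atTop.mp (hev.and hev2)
  obtain ⟨X, hX, hcount⟩ := main_gen A C hC hd f hf κ
    (fun _ => exists_nonzero A C hC H hsq f hf hprime) (max X0 (⌈x1⌉₊ + k.natAbs + 3))
  have hX1 : ⌈x1⌉₊ + k.natAbs + 3 ≤ X := (le_max_right _ _).trans hX
  have hxX : x1 ≤ (X : ℝ) := by
    calc x1 ≤ (⌈x1⌉₊ : ℝ) := Nat.le_ceil _
      _ ≤ X := by exact_mod_cast (by omega : ⌈x1⌉₊ ≤ X)
  obtain ⟨hA, hB⟩ := hx1 X hxX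
  refine ⟨X + k.toNat, by have := (le_max_left X0 (⌈x1⌉₊ + k.natAbs + 3)).trans hX; omega, ?_⟩
  have hle := GN_le_QS b c k A C hk f κ X (by omega)
  have hleR : ((GN A C f κ X).ncard : ℝ) ≤ ((QS b c f κ (X + k.toNat)).ncard : ℝ) + k.natAbs := by
    exact_mod_cast hle
  set L := Real.log X with hL
  have hLpos : 0 < L := by linarith
  have hXpos : (0 : ℝ) < X := by exact_mod_cast (by omega : 0 < X)
  rw [id, Real.norm_of_nonneg (by positivity), Real.norm_of_nonneg hXpos.le] at hA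
  have hlog : L ≤ Real.log ((X + k.toNat : ℕ) : ℝ) := by
    apply Real.log_le_log hXpos
    exact_mod_cast (by omega : X ≤ X + k.toNat)
  have hK2 : (k.natAbs : ℝ) ≤ X / L ^ 38 := by
    rw [le_div_iff₀ (by positivity)]
    calc (k.natAbs : ℝ) * L ^ 38 ≤ K * L ^ 38 :=
          mul_le_mul_of_nonneg_right (by rw [hK]; linarith) (by positivity)
      _ ≤ K * (1 / K * X) := mul_le_mul_of_nonneg_left hA hKpos.le
      _ = X := by field_simp
  have hup : (((X + k.toNat : ℕ) : ℝ)) / Real.log ((X + k.toNat : ℕ) : ℝ) ^ 38 ≤ 2 * (X / L ^ 38) := by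
    have h1 : (((X + k.toNat : ℕ) : ℝ)) ≤ 2 * X := by
      exact_mod_cast (by omega : X + k.toNat ≤ 2 * X)
    calc (((X + k.toNat : ℕ) : ℝ)) / Real.log ((X + k.toNat : ℕ) : ℝ) ^ 38
        ≤ (2 * X) / L ^ 38 := by
          apply div_le_div₀ (by positivity) h1 (by positivity)
          exact pow_le_pow_left₀ hLpos.le hlog 38
      _ = 2 * (X / L ^ 38) := by ring
  have h37 : 3 * (X / L ^ 38) ≤ X / L ^ 37 := by
    have : X / L ^ 37 = L * (X / L ^ 38) := by field_simp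
    rw [this]
    exact mul_le_mul_of_nonneg_right hB (by positivity)
  linarith

end H359R3
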