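import Pool.Agent.H359R3.Sparse

/-! Few `n` in `(X,2X]` have `n^2+An+C` divisible by a large square. -/

namespace H359R3

open Finset H359R2

lemma PP_strictMono (A C : ℕ) {a b : ℕ} (h : a < b) : PP A C a < PP A C b := by
  unfold PP
  have h1 : a ^ 2 < b ^ 2 := Nat.pow_lt_pow_left h two_ne_zero
  have h2 : A * a ≤ A * b := Nat.mul_le_mul_left _ h.le
  omega

/-- gap principle for `P(n) = m s^2`. -/
lemma pell_gap {A C m s t a b X : ℕ} (hC : 1 ≤ C) (hd : A ^ 2 ≠ 4 * C) (ha : PP A C a = m * s ^ 2)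
    (hb : PP A C b = m * t ^ 2) (hab : a < b) (ha1 : X ≤ a) :
    s < t ∧ DD A C * s + X ≤ DD A C * t := by
  have hD := DD_pos hd
  have hPlt := PP_strictMono A C hab
  have hst : s < t := by
    by_contra hcon
    push Not at hcon
    have h1 : t ^ 2 ≤ s ^ 2 := Nat.pow_le_pow_left hcon 2
    have h2 : m * t ^ 2 ≤ m * s ^ 2 := Nat.mul_le_mul_left _ h1
    omega
  refine ⟨hst, ?_⟩
  have hs1 : 1 ≤ s := by
    rcases Nat.eq_zero_or_pos s with h | h
    · rw [h] at ha; unfold PP at ha; simp at ha; omega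
    · exact h
  unfold PP at ha hb
  -- work in the integers
  set Δ : ℤ := (A : ℤ) ^ 2 - 4 * C with hΔ
  have hDD : (DD A C : ℤ) = |Δ| := by
    unfold DD
    rw [Int.natCast_natAbs]
  have hΔ0 : Δ ≠ 0 := by
    intro h0
    rw [h0, abs_zero] at hDD
    omega
  zify at ha hb hab ha1 hst hs1 ⊢
  set y1 : ℤ := 2 * a + A with hy1
  set y2 : ℤ := 2 * b + A with hy2
  have e1 : y1 ^ 2 - Δ = 4 * (m * s ^ 2) := by rw [← ha, hy1, hΔ]; ring
  have e2 : y2 ^ 2 - Δ = 4 * (m * t ^ 2) := by rw [← hb, hy2, hΔ]; ring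
  have hid : (y2 * s - y1 * t) * (y2 * s + y1 * t) = -(Δ * (t ^ 2 - s ^ 2)) := by
    linear_combination (s : ℤ) ^ 2 * e2 - (t : ℤ) ^ 2 * e1
  have hA0 : (0 : ℤ) ≤ A := by positivity
  have hy1pos : 2 * (X : ℤ) ≤ y1 := by rw [hy1]; linarith
  have hX0 : (0 : ℤ) ≤ X := by positivity
  have hy2pos : 0 ≤ y2 := by rw [hy2]; positivity
  have hy1nn : 0 ≤ y1 := by linarith
  have ht0 : (0 : ℤ) ≤ t := by positivity
  have hs0 : (0 : ℤ) ≤ s := by positivity
  have hpos : 0 ≤ y2 * s + y1 * t := by positivity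
  have hts : 0 < (t : ℤ) ^ 2 - s ^ 2 := by nlinarith
  have habs : |y2 * s - y1 * t| * (y2 * s + y1 * t) = |Δ| * ((t : ℤ) ^ 2 - s ^ 2) := by
    have := congrArg abs hid
    rw [abs_mul, abs_neg, abs_mul, abs_of_nonneg hpos, abs_of_pos hts] at this
    exact this
  have hne : y2 * s - y1 * t ≠ 0 := by
    intro h0
    rw [h0, abs_zero, zero_mul] at habs
    have : 0 < |Δ| * ((t : ℤ) ^ 2 - s ^ 2) := mul_pos (abs_pos.mpr hΔ0) hts
    omega
  have h1 : 1 ≤ |y2 * s - y1 * t| := Int.one_le_abs hne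
  have h2 : y2 * s + y1 * t ≤ |Δ| * ((t : ℤ) ^ 2 - s ^ 2) := by
    rw [← habs]
    nlinarith
  have h3 : 2 * (X : ℤ) * t ≤ |Δ| * ((t : ℤ) ^ 2 - s ^ 2) := by
    have e3 : 2 * (X : ℤ) * t ≤ y1 * t := mul_le_mul_of_nonneg_right hy1pos ht0
    have e4 : 0 ≤ y2 * s := by positivity
    linarith
  have h4 : (t : ℤ) ^ 2 - s ^ 2 ≤ 2 * t * (t - s) := by nlinarith
  have h5 : 2 * (X : ℤ) * t ≤ |Δ| * (2 * t * (t - s)) := by
    have := mul_le_mul_of_nonneg_left h4 (abs_nonneg Δ)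
    linarith
  have h6 : (X : ℤ) * (2 * t) ≤ (|Δ| * (t - s)) * (2 * t) := by
    calc (X : ℤ) * (2 * t) = 2 * (X : ℤ) * t := by ring
      _ ≤ |Δ| * (2 * t * (t - s)) := h5
      _ = (|Δ| * (t - s)) * (2 * t) := by ring
  have h7 : (X : ℤ) ≤ |Δ| * (t - s) := le_of_mul_le_mul_right h6 (by linarith)
  rw [hDD]
  linarith

/-- boundedly many `n` in `(X,2X]` with `P(n) = m s^2`. -/
lemma card_pell_le (A C m X : ℕ) (hC : 1 ≤ C) (hd : A ^ 2 ≠ 4 * C) (hX : 1 ≤ X) (S : Finset ℕ)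
    (hS : ∀ n ∈ S, X < n ∧ n ≤ X + X ∧ ∃ s, PP A C n = m * s ^ 2) :
    S.card ≤ DD A C * (2 + A + C) + 1 := by
  classical
  have hm : ∀ n ∈ S, 1 ≤ m := by
    intro n hn
    obtain ⟨_, _, s, hs⟩ := hS n hn
    rcases Nat.eq_zero_or_pos m with h | h
    · rw [h] at hs; unfold PP at hs; omega
    · exact h
  have hsq : ∀ n ∈ S, ∀ s, PP A C n = m * s ^ 2 → Nat.sqrt (PP A C n / m) = s := by
    intro n hn s hs
    rw [hs, Nat.mul_div_cancel_left _ (hm n hn), Nat.sqrt_eq']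
  have hle : ∀ n ∈ S, Nat.sqrt (PP A C n / m) ≤ (2 + A + C) * X := by
    intro n hn
    obtain ⟨h1, h2, s, hs⟩ := hS n hn
    rw [hsq n hn s hs]
    have h3 : s ^ 2 ≤ ((2 + A + C) * X) ^ 2 := by
      calc s ^ 2 = 1 * s ^ 2 := (one_mul _).symm
        _ ≤ m * s ^ 2 := Nat.mul_le_mul_right _ (hm n hn)
        _ = PP A C n := hs.symm
        _ ≤ ((2 + A + C) * X) ^ 2 := by
          unfold PP
          have e1 : n ^ 2 ≤ (X + X) ^ 2 := Nat.pow_le_pow_left h2 2
          have e2 : A * n ≤ A * (X + X) := Nat.mul_le_mul_left _ h2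
          have e3 : X * 1 ≤ X * X := Nat.mul_le_mul_left _ hX
          have e4 : C * 1 ≤ C * X ^ 2 := Nat.mul_le_mul_left _ (Nat.one_le_pow _ _ hX)
          have e5 : A * (X + X) ≤ 2 * (A * X ^ 2) := by nlinarith
          nlinarith [Nat.zero_le (A * C * X ^ 2), Nat.zero_le (A ^ 2 * X ^ 2),
            Nat.zero_le (C ^ 2 * X ^ 2)]
    exact (Nat.pow_le_pow_iff_left two_ne_zero).mp h3
  let φ : ℕ → ℕ := fun n => DD A C * Nat.sqrt (PP A C n / m) / X
  have hlt : ∀ a ∈ S, ∀ b ∈ S, a < b → φ a < φ b := by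
    intro a ha b hb hab
    obtain ⟨ha1, ha2, s, hs⟩ := hS a ha
    obtain ⟨hb1, hb2, t, ht⟩ := hS b hb
    have hg := (pell_gap hC hd hs ht hab ha1.le).2
    have h1 : φ a = DD A C * s / X := by simp only [φ]; rw [hsq a ha s hs]
    have h2 : φ b = DD A C * t / X := by simp only [φ]; rw [hsq b hb t ht]
    rw [h1, h2]
    have h3 : (DD A C * s + X) / X ≤ DD A C * t / X := Nat.div_le_div_right hg
    rw [Nat.add_div_right _ (by omega)] at h3
    omega
  have hinj : Set.InjOn φ (S : Set ℕ) := by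
    intro a ha b hb hab
    rcases lt_trichotomy a b with h | h | h
    · exact absurd hab (hlt a ha b hb h).ne
    · exact h
    · exact absurd hab (hlt b hb a ha h).ne'
  have himg : S.image φ ⊆ Finset.range (DD A C * (2 + A + C) + 1) := by
    intro y hy
    rw [Finset.mem_image] at hy
    obtain ⟨n, hn, rfl⟩ := hy
    rw [Finset.mem_range, Nat.lt_succ_iff]
    have h1 : φ n ≤ DD A C * ((2 + A + C) * X) / X :=
      Nat.div_le_div_right (Nat.mul_le_mul_left _ (hle n hn))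
    rw [← mul_assoc, Nat.mul_div_cancel _ (by omega)] at h1
    exact h1
  calc S.card = (S.image φ).card := (Finset.card_image_of_injOn hinj).symm
    _ ≤ _ := Finset.card_le_card himg
    _ = _ := Finset.card_range _

lemma tau_sq_le (s : ℕ) : (tau (s ^ 2) : ℝ) ≤ (tau s : ℝ) ^ 2 := by
  have := tau_mul_le s s
  rw [← pow_two, ← pow_two] at this
  exact_mod_cast this

open Classical in
/-- `n ∈ (X,2X]` such that `s^2 ∣ P(n)` for some `s > S`. -/
lemma card_large_square (A C X Z : ℕ) (S : ℝ) (hC : 1 ≤ C) (hd : A ^ 2 ≠ 4 * C) (hX : 1 ≤ X)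
    (hS : 0 < S) :
    (((Finset.Ioc X (X + X)).filter (fun n => ∃ s : ℕ, S < s ∧ s ^ 2 ∣ PP A C n)).card : ℝ) ≤
      DD A C * X * (1 + Real.log Z) ^ 4 / S + DD A C * Z * (1 + Real.log Z) ^ 4 +
        ((DD A C * (2 + A + C) + 1) * (2 + A + C) ^ 2) * (X : ℝ) ^ 2 / (Z + 1) ^ 2 := by
  set E := 2 + A + C with hE
  set K := DD A C * E + 1 with hK
  set M := (E * X) ^ 2 / (Z + 1) ^ 2 with hM
  let P : ℕ → Finset ℕ := fun s => (Finset.Ioc X (X + X)).filter (fun n => s ^ 2 ∣ PP A C n)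
  let Q : ℕ → Finset ℕ := fun m => (Finset.Ioc X (X + X)).filter
    (fun n => ∃ s, PP A C n = m * s ^ 2)
  set I := (Finset.Icc 1 Z).filter (fun s : ℕ => S < s) with hI
  have hPn : ∀ n, n ≤ X + X → PP A C n ≤ (E * X) ^ 2 := by
    intro n h2
    unfold PP
    have e1 : n ^ 2 ≤ (X + X) ^ 2 := Nat.pow_le_pow_left h2 2
    have e2 : A * n ≤ A * (X + X) := Nat.mul_le_mul_left _ h2
    have e3 : X * 1 ≤ X * X := Nat.mul_le_mul_left _ hX
    have e4 : C * 1 ≤ C * X ^ 2 := Nat.mul_le_mul_left _ (Nat.one_le_pow _ _ hX)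
    have e5 : A * (X + X) ≤ 2 * (A * X ^ 2) := by nlinarith
    rw [hE]
    nlinarith [Nat.zero_le (A * C * X ^ 2), Nat.zero_le (A ^ 2 * X ^ 2),
      Nat.zero_le (C ^ 2 * X ^ 2)]
  have hsub : (Finset.Ioc X (X + X)).filter (fun n => ∃ s : ℕ, S < s ∧ s ^ 2 ∣ PP A C n) ⊆
      (I.biUnion P) ∪ ((Finset.Icc 1 M).biUnion Q) := by
    intro n hn
    rw [Finset.mem_filter, Finset.mem_Ioc] at hn
    obtain ⟨⟨hn1, hn2⟩, s, hs, hdvd⟩ := hn
    rw [Finset.mem_union, Finset.mem_biUnion, Finset.mem_biUnion]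
    have hs1 : 1 ≤ s := by
      rcases Nat.eq_zero_or_pos s with h | h
      · rw [h] at hs; simp at hs; linarith
      · exact h
    by_cases hsZ : s ≤ Z
    · left
      refine ⟨s, ?_, ?_⟩
      · rw [hI, Finset.mem_filter, Finset.mem_Icc]
        exact ⟨⟨hs1, hsZ⟩, hs⟩
      · rw [Finset.mem_filter, Finset.mem_Ioc]
        exact ⟨⟨hn1, hn2⟩, hdvd⟩
    · right
      push Not at hsZ
      obtain ⟨m, hm⟩ := hdvd
      refine ⟨m, ?_, ?_⟩
      · rw [Finset.mem_Icc]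
        constructor
        · rcases Nat.eq_zero_or_pos m with h | h
          · rw [h] at hm; unfold PP at hm; simp at hm; omega
          · exact h
        · rw [hM, Nat.le_div_iff_mul_le (by positivity)]
          have h1 : (Z + 1) ^ 2 ≤ s ^ 2 := Nat.pow_le_pow_left hsZ 2
          calc m * (Z + 1) ^ 2 ≤ m * s ^ 2 := Nat.mul_le_mul_left _ h1
            _ = PP A C n := by rw [hm]; ring
            _ ≤ _ := hPn n hn2
      · rw [Finset.mem_filter, Finset.mem_Ioc]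
        exact ⟨⟨hn1, hn2⟩, s, by rw [hm]; ring⟩
  have hP : ∀ s ∈ I, ((P s).card : ℝ) ≤ DD A C * X / S * ((tau s : ℝ) ^ 2 / s) +
      DD A C * Z * ((tau s : ℝ) ^ 2 / s) := by
    intro s hs
    rw [hI, Finset.mem_filter, Finset.mem_Icc] at hs
    obtain ⟨⟨hs1, hsZ⟩, hsS⟩ := hs
    have hsR : (0 : ℝ) < s := by exact_mod_cast hs1
    have h1 := card_dvd_PP A C (s ^ 2) X X hd (Nat.one_le_pow _ _ hs1)
    have h2 : ((P s).card : ℝ) ≤ DD A C * (tau s : ℝ) ^ 2 * (X / (s : ℝ) ^ 2 + 1) := by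
      calc ((P s).card : ℝ) ≤ DD A C * tau (s ^ 2) * (X / ((s ^ 2 : ℕ) : ℝ) + 1) := h1
        _ ≤ DD A C * (tau s : ℝ) ^ 2 * (X / (s : ℝ) ^ 2 + 1) := by
          push_cast
          apply mul_le_mul_of_nonneg_right _ (by positivity)
          exact mul_le_mul_of_nonneg_left (tau_sq_le s) (by positivity)
    refine h2.trans ?_
    have h3 : (X : ℝ) / (s : ℝ) ^ 2 ≤ X / S * (1 / s) := by
      rw [div_mul_div_comm, mul_one]
      apply div_le_div_of_nonneg_left (by positivity) (by positivity)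
      nlinarith
    have h4 : (1 : ℝ) ≤ Z * (1 / s) := by
      rw [mul_one_div, le_div_iff₀ hsR, one_mul]
      exact_mod_cast hsZ
    calc DD A C * (tau s : ℝ) ^ 2 * (X / (s : ℝ) ^ 2 + 1)
        ≤ DD A C * (tau s : ℝ) ^ 2 * (X / S * (1 / s) + Z * (1 / s)) :=
          mul_le_mul_of_nonneg_left (add_le_add h3 h4) (by positivity)
      _ = _ := by ring
  have hQ : ∀ m ∈ Finset.Icc 1 M, (Q m).card ≤ K := by
    intro m _
    apply card_pell_le A C m X hC hd hX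
    intro n hn
    rw [Finset.mem_filter, Finset.mem_Ioc] at hn
    exact ⟨hn.1.1, hn.1.2, hn.2⟩
  have hT : ∑ s ∈ I, (tau s : ℝ) ^ 2 / s ≤ (1 + Real.log Z) ^ 4 := by
    calc ∑ s ∈ I, (tau s : ℝ) ^ 2 / s ≤ ∑ s ∈ Finset.Icc 1 Z, (tau s : ℝ) ^ 2 / s := by
          apply Finset.sum_le_sum_of_subset_of_nonneg (Finset.filter_subset _ _)
          intro s _ _
          positivity
      _ ≤ (1 + Real.log Z) ^ 4 := by
          have := tsm_le 2 Z
          norm_num at this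
          exact this
  have hunion : ((I.biUnion P).card : ℝ) ≤ DD A C * X * (1 + Real.log Z) ^ 4 / S +
      DD A C * Z * (1 + Real.log Z) ^ 4 := by
    calc ((I.biUnion P).card : ℝ) ≤ ∑ s ∈ I, ((P s).card : ℝ) := by
          exact_mod_cast Finset.card_biUnion_le
      _ ≤ ∑ s ∈ I, (DD A C * X / S * ((tau s : ℝ) ^ 2 / s) + DD A C * Z * ((tau s : ℝ) ^ 2 / s)) :=
          Finset.sum_le_sum hP
      _ = (DD A C * X / S + DD A C * Z) * ∑ s ∈ I, (tau s : ℝ) ^ 2 / s := by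
          rw [Finset.sum_add_distrib, ← Finset.mul_sum, ← Finset.mul_sum]; ring
      _ ≤ (DD A C * X / S + DD A C * Z) * (1 + Real.log Z) ^ 4 :=
          mul_le_mul_of_nonneg_left hT (by positivity)
      _ = _ := by ring
  have hunion2 : ((((Finset.Icc 1 M).biUnion Q).card : ℕ) : ℝ) ≤
      ((DD A C * (2 + A + C) + 1) * (2 + A + C) ^ 2) * (X : ℝ) ^ 2 / (Z + 1) ^ 2 := by
    calc ((((Finset.Icc 1 M).biUnion Q).card : ℕ) : ℝ) ≤ ∑ m ∈ Finset.Icc 1 M, ((Q m).card : ℝ) := by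
          exact_mod_cast Finset.card_biUnion_le
      _ ≤ ∑ m ∈ Finset.Icc 1 M, (K : ℝ) := by
          apply Finset.sum_le_sum
          intro m hm
          exact_mod_cast hQ m hm
      _ = M * K := by rw [Finset.sum_const, Nat.card_Icc, nsmul_eq_mul]; simp
      _ ≤ (((E * X : ℝ)) ^ 2 / (Z + 1) ^ 2) * K := by
          apply mul_le_mul_of_nonneg_right _ (by positivity)
          have := @Nat.cast_div_le ℝ _ _ _ ((E * X) ^ 2) ((Z + 1) ^ 2)
          push_cast at this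
          rw [hM]
          exact this
      _ = _ := by rw [hK, hE]; push_cast; ring
  calc (((Finset.Ioc X (X + X)).filter (fun n => ∃ s : ℕ, S < s ∧ s ^ 2 ∣ PP A C n)).card : ℝ)
      ≤ ((I.biUnion P ∪ (Finset.Icc 1 M).biUnion Q).card : ℝ) := by
        exact_mod_cast Finset.card_le_card hsub
    _ ≤ ((I.biUnion P).card : ℝ) + (((Finset.Icc 1 M).biUnion Q).card : ℝ) := by
        exact_mod_cast Finset.card_union_le _ _
    _ ≤ _ := add_le_add hunion hunion2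

end H359R3
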