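import Pool.Agent.H359R3.Exist
import Pool.Agent.H359R3.MainGen

/-! A completely additive function modulo two, equal to `1` at all primes, does not vanish on the
values of the form `x^2+Axy+Cy^2` in the quadrant. -/

namespace H359R3

lemma f_mul_self {f : ℕ → ZMod 2} (hf : ∀ m n : ℕ, m ≠ 0 → n ≠ 0 → f (m * n) = f m + f n)
    {a b : ℕ} (ha : a ≠ 0) (hb : b ≠ 0) : f (a * (b * b)) = f a := by
  rw [hf _ _ ha (mul_ne_zero hb hb), hf _ _ hb hb, zmod2_add_self, add_zero]

/-- values at `(x,-m)` -/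
lemma neg_side (A C : ℕ) (hC : 1 ≤ C) (H : A ≤ 1 ∨ C + 1 ≤ A) (f : ℕ → ZMod 2)
    (hf : ∀ m n : ℕ, m ≠ 0 → n ≠ 0 → f (m * n) = f m + f n)
    (h0 : ∀ x y : ℕ, ¬(x = 0 ∧ y = 0) → f (Nm A C x y) = 0) :
    ∀ (m : ℕ) (x : ℤ), 0 < x ^ 2 - A * (x * m) + C * (m : ℤ) ^ 2 →
      f (x ^ 2 - A * (x * m) + C * (m : ℤ) ^ 2).natAbs = 0 := by
  intro m
  induction m using Nat.strong_induction_on with
  | _ m ih =>
    intro x hpos
    rcases Nat.eq_zero_or_pos m with hm0 | hm0
    · subst hm0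
      have hx : x ≠ 0 := by
        rintro rfl
        simp at hpos
      have h1 := h0 x.natAbs 0 (by
        rintro ⟨h, _⟩
        exact hx (Int.natAbs_eq_zero.mp h))
      have h2 : (x ^ 2 - A * (x * ((0 : ℕ) : ℤ)) + C * ((0 : ℕ) : ℤ) ^ 2).natAbs =
          Nm A C x.natAbs 0 := by
        unfold Nm
        simp [Int.natAbs_pow]
      rw [h2]
      exact h1
    · have hmZ : (1 : ℤ) ≤ m := by exact_mod_cast hm0
      have hCZ : (1 : ℤ) ≤ C := by exact_mod_cast hC
      have hAZ : (0 : ℤ) ≤ A := by positivity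
      rcases le_or_gt x 0 with hx | hx
      · obtain ⟨u, hu⟩ : ∃ u : ℕ, x = -(u : ℤ) := ⟨x.natAbs, by omega⟩
        have h1 := h0 u m (by omega)
        have h2 : (x ^ 2 - A * (x * m) + C * (m : ℤ) ^ 2) = ((Nm A C u m : ℕ) : ℤ) := by
          unfold Nm
          rw [hu]
          push_cast
          ring
        rw [h2, Int.natAbs_natCast]
        exact h1
      · rcases le_or_gt ((A : ℤ) * m) x with hxA | hxA
        · obtain ⟨u, hu⟩ : ∃ u : ℕ, x = A * m + (u : ℤ) := ⟨(x - A * m).natAbs, by omega⟩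
          have h1 := h0 u m (by omega)
          have h2 : (x ^ 2 - A * (x * m) + C * (m : ℤ) ^ 2) = ((Nm A C u m : ℕ) : ℤ) := by
            unfold Nm
            rw [hu]
            push_cast
            ring
          rw [h2, Int.natAbs_natCast]
          exact h1
        · -- 0 < x < A m
          have key : ∀ t : ℤ, 0 < t → t < A * m → A * m ≤ 2 * t →
              0 < t ^ 2 - A * (t * m) + C * (m : ℤ) ^ 2 →
              f (t ^ 2 - A * (t * m) + C * (m : ℤ) ^ 2).natAbs = 0 := by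
            intro t ht1 ht2 ht3 ht4
            have hlt : A * m - t < m := by
              by_contra hcon
              push Not at hcon
              rcases H with H1 | H1
              · have : (A : ℤ) ≤ 1 := by exact_mod_cast H1
                nlinarith
              · have hCA : (C : ℤ) + 1 ≤ A := by exact_mod_cast H1
                have e1 : (m : ℤ) ≤ t := by nlinarith
                have e2 : 0 ≤ (t - m) * ((A - 1) * m - t) := by
                  apply mul_nonneg (by linarith)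
                  linarith
                nlinarith
            obtain ⟨m', hm'⟩ : ∃ m' : ℕ, (A : ℤ) * m - t = m' := ⟨(A * m - t).natAbs, by omega⟩
            have hm'lt : m' < m := by omega
            set V := t ^ 2 - A * (t * m) + C * (m : ℤ) ^ 2 with hV
            have hval : ((C : ℤ) * m) ^ 2 - A * ((C * m) * m') + C * (m' : ℤ) ^ 2 = C * V := by
              rw [← hm', hV]; ring
            have hpos' : 0 < ((C : ℤ) * m) ^ 2 - A * ((C * m) * m') + C * (m' : ℤ) ^ 2 := by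
              rw [hval]; positivity
            have h3 := ih m' hm'lt (C * m) hpos'
            rw [hval, Int.natAbs_mul, Int.natAbs_natCast, hf _ _ (by omega) (by omega)] at h3
            have h4 : f C = 0 := by
              have := h0 0 1 (by omega)
              unfold Nm at this
              simpa using this
            rw [h4, zero_add] at h3
            exact h3
          rcases le_or_gt ((A : ℤ) * m) (2 * x) with h2x | h2x
          · exact key x hx hxA h2x hpos
          · have hsym : (x ^ 2 - A * (x * m) + C * (m : ℤ) ^ 2) =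
                ((A * m - x) ^ 2 - A * ((A * m - x) * m) + C * (m : ℤ) ^ 2) := by ring
            rw [hsym] at hpos ⊢
            exact key (A * m - x) (by linarith) (by linarith) (by linarith) hpos

/-- all positive values of the form over the integers -/
lemma pos_values (A C : ℕ) (hC : 1 ≤ C) (H : A ≤ 1 ∨ C + 1 ≤ A) (f : ℕ → ZMod 2)
    (hf : ∀ m n : ℕ, m ≠ 0 → n ≠ 0 → f (m * n) = f m + f n)
    (h0 : ∀ x y : ℕ, ¬(x = 0 ∧ y = 0) → f (Nm A C x y) = 0) (x y : ℤ)
    (hpos : 0 < x ^ 2 + A * (x * y) + C * y ^ 2) :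
    f (x ^ 2 + A * (x * y) + C * y ^ 2).natAbs = 0 := by
  rcases le_or_gt y 0 with hy | hy
  · obtain ⟨m, hm⟩ : ∃ m : ℕ, y = -(m : ℤ) := ⟨y.natAbs, by omega⟩
    have h1 : x ^ 2 + A * (x * y) + C * y ^ 2 = x ^ 2 - A * (x * m) + C * (m : ℤ) ^ 2 := by
      rw [hm]; ring
    rw [h1] at hpos ⊢
    exact neg_side A C hC H f hf h0 m x hpos
  · obtain ⟨m, hm⟩ : ∃ m : ℕ, y = (m : ℤ) := ⟨y.natAbs, by omega⟩
    have h1 : x ^ 2 + A * (x * y) + C * y ^ 2 = (-x) ^ 2 - A * ((-x) * m) + C * (m : ℤ) ^ 2 := by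
      rw [hm]; ring
    rw [h1] at hpos ⊢
    exact neg_side A C hC H f hf h0 m (-x) hpos

theorem exists_nonzero (A C : ℕ) (hC : 1 ≤ C) (H : A ≤ 1 ∨ C + 1 ≤ A)
    (hsq : ¬ IsSquare ((A : ℤ) ^ 2 - 4 * C)) (f : ℕ → ZMod 2)
    (hf : ∀ m n : ℕ, m ≠ 0 → n ≠ 0 → f (m * n) = f m + f n)
    (hprime : ∀ q : ℕ, q.Prime → f q = 1) :
    ∃ x y : ℕ, ¬(x = 0 ∧ y = 0) ∧ f (Nm A C x y) ≠ 0 := by
  by_contra hcon
  push Not at hcon
  have h0 : ∀ x y : ℕ, ¬(x = 0 ∧ y = 0) → f (Nm A C x y) = 0 := by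
    intro x y hxy
    apply hcon x y
    intro hx hy
    exact hxy ⟨hx, hy⟩
  set D : ℤ := (A : ℤ) ^ 2 - 4 * C with hD
  have hD2 : 2 ≤ D.natAbs := by
    have h1 : D ≠ 0 := by
      intro h; apply hsq; rw [h]; exact ⟨0, by ring⟩
    have h2 : D ≠ 1 := by
      intro h; apply hsq; rw [h]; exact ⟨1, by ring⟩
    have h3 : D ≠ -1 := by
      intro h
      rcases Int.even_or_odd' (A : ℤ) with ⟨k, hk | hk⟩
      · have : 4 * (k * k - C) = -1 := by rw [← h, hD, hk]; ring
        omega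
      · have : 4 * (k * k + k - C) + 1 = -1 := by rw [← h, hD, hk]; ring
        omega
    omega
  obtain ⟨q, hq, x, y, z, hcase⟩ := exists_repr D hD2 hsq
  have hq0 : q ≠ 0 := hq.ne_zero
  have hqpos : (0 : ℤ) < q := by exact_mod_cast hq.pos
  have hform : ∀ u v : ℤ, u ^ 2 - D * v ^ 2 =
      (u - A * v) ^ 2 + A * ((u - A * v) * (2 * v)) + C * (2 * v) ^ 2 := by
    intro u v
    rw [hD]; ring
  rcases hcase with ⟨h1, hz⟩ | h1
  · have hpos : 0 < x ^ 2 - D * y ^ 2 := by rw [h1]; positivity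
    have h2 := hpos
    rw [hform] at h2
    have h3 := pos_values A C hC H f hf h0 _ _ h2
    rw [← hform, h1] at h3
    have h4 : ((q : ℤ) * z ^ 2).natAbs = q * (z.natAbs * z.natAbs) := by
      rw [Int.natAbs_mul, Int.natAbs_natCast, Int.natAbs_pow, pow_two]
    rw [h4, f_mul_self hf hq0 (by omega), hprime q hq] at h3
    exact one_ne_zero h3
  · have hzD : z ^ 2 - D ≠ 0 := by
      intro h
      apply hsq
      exact ⟨z, by linarith⟩
    -- product of the two values
    set x1 : ℤ := x - A * y with hx1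
    set y1 : ℤ := 2 * y with hy1
    set x2 : ℤ := z - A with hx2
    have hN1 : x1 ^ 2 + A * (x1 * y1) + C * y1 ^ 2 = q * (z ^ 2 - D) := by
      rw [← h1, hform x y]
    have hN2 : x2 ^ 2 + A * (x2 * 2) + C * 2 ^ 2 = z ^ 2 - D := by
      rw [hx2, hD]; ring
    have hprod : (x1 * x2 - C * (y1 * 2)) ^ 2 +
        A * ((x1 * x2 - C * (y1 * 2)) * (x1 * 2 + y1 * x2 + A * (y1 * 2))) +
        C * (x1 * 2 + y1 * x2 + A * (y1 * 2)) ^ 2 = q * (z ^ 2 - D) ^ 2 := by
      have : q * (z ^ 2 - D) ^ 2 = (x1 ^ 2 + A * (x1 * y1) + C * y1 ^ 2) *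
          (x2 ^ 2 + A * (x2 * 2) + C * 2 ^ 2) := by rw [hN1, hN2]; ring
      rw [this]; ring
    have hpos : 0 < (x1 * x2 - C * (y1 * 2)) ^ 2 +
        A * ((x1 * x2 - C * (y1 * 2)) * (x1 * 2 + y1 * x2 + A * (y1 * 2))) +
        C * (x1 * 2 + y1 * x2 + A * (y1 * 2)) ^ 2 := by
      rw [hprod]
      have : 0 < (z ^ 2 - D) ^ 2 := by positivity
      positivity
    have h3 := pos_values A C hC H f hf h0 _ _ hpos
    rw [hprod] at h3
    have h4 : ((q : ℤ) * (z ^ 2 - D) ^ 2).natAbs = q * ((z ^ 2 - D).natAbs * (z ^ 2 - D).natAbs) := by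
      rw [Int.natAbs_mul, Int.natAbs_natCast, Int.natAbs_pow, pow_two]
    rw [h4, f_mul_self hf hq0 (by omega), hprime q hq] at h3
    exact one_ne_zero h3

end H359R3
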