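import Pool.Agent.H359R3.MainQuad
import Pool.Agent.H359R2.MainOne

/-! Versions with an arbitrary set of primes. -/

namespace H359R3

open Finset

/-- the good `n` for a set of primes `S`. -/
def GS (A C : ℕ) (S : Set ℕ) (X : ℕ) : Set ℕ :=
  {n : ℕ | X < n ∧ n ≤ 2 * X ∧ ∃ s m : ℕ, PP A C n = s ^ 2 * m ∧ Squarefree m ∧
      (s : ℝ) ≤ Real.log X ^ 41 ∧ Odd (Set.ncard {p : ℕ | p.Prime ∧ p ∣ m ∧ p ∈ S})}

theorem main_set (A C : ℕ) (hC : 1 ≤ C) (H : A ≤ 1 ∨ C + 1 ≤ A) (hd : A ^ 2 ≠ 4 * C) (S : Set ℕ)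
    (hS : ∃ p ∈ S, p.Prime ∧ ∃ x y : ℤ, (p : ℤ) = x ^ 2 + A * (x * y) + C * y ^ 2) (X0 : ℕ) :
    ∃ X : ℕ, X0 ≤ X ∧ (X : ℝ) / Real.log X ^ 37 ≤ ((GS A C S X).ncard : ℝ) := by
  obtain ⟨p, hpS, hp, x, y, hxy⟩ := hS
  have hf := H359R2.fS_mul S
  have hex : ∃ x y : ℕ, ¬(x = 0 ∧ y = 0) ∧ H359R2.fS S (Nm A C x y) ≠ 0 := by
    by_contra hcon
    push Not at hcon
    have h0 : ∀ x y : ℕ, ¬(x = 0 ∧ y = 0) → H359R2.fS S (Nm A C x y) = 0 := by
      intro x y hxy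
      apply hcon x y
      intro hx hy
      exact hxy ⟨hx, hy⟩
    have hpos : 0 < x ^ 2 + A * (x * y) + C * y ^ 2 := by
      rw [← hxy]
      exact_mod_cast hp.pos
    have h1 := pos_values A C hC H (H359R2.fS S) hf h0 x y hpos
    rw [← hxy, Int.natAbs_natCast, H359R2.fS_prime hp hpS] at h1
    exact one_ne_zero h1
  obtain ⟨X, hX, hc⟩ := main_gen A C hC hd (H359R2.fS S) hf 1 (fun _ => hex) X0
  refine ⟨X, hX, hc.trans ?_⟩
  have hfin : (GS A C S X).Finite := by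
    apply Set.Finite.subset (Set.finite_Icc 0 (2 * X))
    intro n hn
    exact ⟨Nat.zero_le _, hn.2.1⟩
  have hsub : GN A C (H359R2.fS S) 1 X ⊆ GS A C S X := by
    rintro n ⟨h1, h2, s, m, h3, h4, h5, h6⟩
    refine ⟨h1, h2, s, m, h3, h4, h5, ?_⟩
    apply H359R2.odd_of_cast_ne_zero
    rw [← H359R2.fS_squarefree h4, h6]
    exact one_ne_zero
  exact_mod_cast Set.ncard_le_ncard hsub hfin

/-- target set -/
def QSS (b c : ℤ) (S : Set ℕ) (X : ℕ) : Set ℕ :=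
  {n : ℕ | X < n ∧ n ≤ 2 * X ∧ ∃ s m : ℕ, (n : ℤ) ^ 2 + b * n + c = s ^ 2 * m ∧ Squarefree m ∧
      (s : ℝ) ≤ Real.log X ^ 41 ∧ Odd (Set.ncard {p : ℕ | p.Prime ∧ p ∣ m ∧ p ∈ S})}

theorem main_set_int (b c : ℤ) (hne : b ^ 2 ≠ 4 * c) (S : Set ℕ)
    (hS : ∃ p ∈ S, p.Prime ∧ ∃ x y : ℤ, (p : ℤ) = x ^ 2 + b * (x * y) + c * y ^ 2) (X0 : ℕ) :
    ∃ X : ℕ, X0 ≤ X ∧ (X : ℝ) / Real.log X ^ 38 ≤ ((QSS b c S X).ncard : ℝ) := by
  obtain ⟨k, A, C, hC, H, hdisc, hk⟩ := exists_shift b c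
  have hd : A ^ 2 ≠ 4 * C := by
    intro h
    apply hne
    have : (A : ℤ) ^ 2 = 4 * C := by exact_mod_cast h
    linarith
  obtain ⟨p, hpS, hp, x, y, hxy⟩ := hS
  have hk0 := hk 0
  have hk1 := hk 1
  have hC' : (C : ℤ) = k ^ 2 + b * k + c := by linarith
  have hA' : (A : ℤ) = b + 2 * k := by nlinarith
  have hxy' : (p : ℤ) = (x - k * y) ^ 2 + A * ((x - k * y) * y) + C * y ^ 2 := by
    rw [hxy, hA', hC']; ring
  have hf := H359R2.fS_mul S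
  have hex : ∃ x y : ℕ, ¬(x = 0 ∧ y = 0) ∧ H359R2.fS S (Nm A C x y) ≠ 0 := by
    by_contra hcon
    push Not at hcon
    have h0 : ∀ x y : ℕ, ¬(x = 0 ∧ y = 0) → H359R2.fS S (Nm A C x y) = 0 := by
      intro x y hxy
      apply hcon x y
      intro hx hy
      exact hxy ⟨hx, hy⟩
    have hpos : 0 < (x - k * y) ^ 2 + A * ((x - k * y) * y) + C * y ^ 2 := by
      rw [← hxy']
      exact_mod_cast hp.pos
    have h1 := pos_values A C hC H (H359R2.fS S) hf h0 _ _ hpos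
    rw [← hxy', Int.natAbs_natCast, H359R2.fS_prime hp hpS] at h1
    exact one_ne_zero h1
  set K : ℝ := (k.natAbs : ℝ) + 1 with hK
  have hKpos : 0 < K := by positivity
  have hev : ∀ᶠ x : ℝ in Filter.atTop, ‖Real.log x ^ 38‖ ≤ (1 / K) * ‖id x‖ :=
    Real.isLittleO_pow_log_id_atTop.bound (by positivity)
  have hev2 : ∀ᶠ x : ℝ in Filter.atTop, 3 ≤ Real.log x :=
    Real.tendsto_log_atTop.eventually_ge_atTop _
  obtain ⟨x1, hx1⟩ := Filter.eventually_atTop.mp (hev.and hev2)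
  obtain ⟨X, hX, hcount⟩ := main_gen A C hC hd (H359R2.fS S) hf 1 (fun _ => hex)
    (max X0 (⌈x1⌉₊ + k.natAbs + 3))
  have hX1 : ⌈x1⌉₊ + k.natAbs + 3 ≤ X := (le_max_right _ _).trans hX
  have hxX : x1 ≤ (X : ℝ) := by
    calc x1 ≤ (⌈x1⌉₊ : ℝ) := Nat.le_ceil _
      _ ≤ X := by exact_mod_cast (by omega : ⌈x1⌉₊ ≤ X)
  obtain ⟨hA, hB⟩ := hx1 X hxX
  refine ⟨X + k.toNat, by have := (le_max_left X0 (⌈x1⌉₊ + k.natAbs + 3)).trans hX; omega, ?_⟩
  have hle := GN_le_QS b c k A C hk (H359R2.fS S) 1 X (by omega)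
  have hfin : (QSS b c S (X + k.toNat)).Finite := by
    apply Set.Finite.subset (Set.finite_Icc 0 (2 * (X + k.toNat)))
    intro n hn
    exact ⟨Nat.zero_le _, hn.2.1⟩
  have hsub : QS b c (H359R2.fS S) 1 (X + k.toNat) ⊆ QSS b c S (X + k.toNat) := by
    rintro n ⟨h1, h2, s, m, h3, h4, h5, h6⟩
    refine ⟨h1, h2, s, m, h3, h4, h5, ?_⟩
    apply H359R2.odd_of_cast_ne_zero
    rw [← H359R2.fS_squarefree h4, h6]
    exact one_ne_zero
  have hle2 := Set.ncard_le_ncard hsub hfin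
  have hleR : ((GN A C (H359R2.fS S) 1 X).ncard : ℝ) ≤
      ((QSS b c S (X + k.toNat)).ncard : ℝ) + k.natAbs := by
    have : (GN A C (H359R2.fS S) 1 X).ncard ≤ (QSS b c S (X + k.toNat)).ncard + k.natAbs := by
      omega
    exact_mod_cast this
  set L := Real.log X with hL
  have hLpos : 0 < L := by linarith
  have hXpos : (0 : ℝ) < X := by exact_mod_cast (by omega : 0 < X)
  rw [id, Real.norm_of_nonneg (by positivity), Real.norm_of_nonneg hXpos.le] at hA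
  have hlog : L ≤ Real.log ((X + k.toNat : ℕ) : ℝ) := by
    apply Real.log_le_log hXpos
    exact_mod_cast (by omega : X ≤ X + k.toNat)
  have hK2 : (k.natAbs : ℝ) ≤ X / L ^ 38 := by
    rw [le_div_iff₀ (by positivity)]
    calc (k.natAbs : ℝ) * L ^ 38 ≤ K * L ^ 38 :=
          mul_le_mul_of_nonneg_right (by rw [hK]; linarith) (by positivity)
      _ ≤ K * (1 / K * X) := mul_le_mul_of_nonneg_left hA hKpos.le
      _ = X := by field_simp
  have hup : (((X + k.toNat : ℕ) : ℝ)) / Real.log ((X + k.toNat : ℕ) : ℝ) ^ 38 ≤ 2 * (X / L ^ 38) := by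
    have h1 : (((X + k.toNat : ℕ) : ℝ)) ≤ 2 * X := by
      exact_mod_cast (by omega : X + k.toNat ≤ 2 * X)
    calc (((X + k.toNat : ℕ) : ℝ)) / Real.log ((X + k.toNat : ℕ) : ℝ) ^ 38
        ≤ (2 * X) / L ^ 38 := by
          apply div_le_div₀ (by positivity) h1 (by positivity)
          exact pow_le_pow_left₀ hLpos.le hlog 38
      _ = 2 * (X / L ^ 38) := by ring
  have h37 : 3 * (X / L ^ 38) ≤ X / L ^ 37 := by
    have : X / L ^ 37 = L * (X / L ^ 38) := by field_simp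
    rw [this]
    exact mul_le_mul_of_nonneg_right hB (by positivity)
  linarith

end H359R3
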