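import Mathlib

/-! Primes congruent to `±1` modulo `8` (and `2`) are of the form `x^2-2y^2`. -/

namespace H359R3

lemma prime_eq_sq_sub_two_sq (p : ℕ) (hp : p.Prime) (h8 : p % 8 = 1 ∨ p % 8 = 2 ∨ p % 8 = 7) :
    ∃ x y : ℤ, (p : ℤ) = x ^ 2 - 2 * y ^ 2 := by
  classical
  have : Fact p.Prime := ⟨hp⟩
  by_cases hp2 : p = 2
  · exact ⟨2, 1, by rw [hp2]; norm_num⟩
  have hodd : p % 2 = 1 := by
    rcases hp.eq_two_or_odd with h | h
    · exact absurd h hp2
    · exact h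
  have hsq : IsSquare (2 : ZMod p) := by
    rw [ZMod.exists_sq_eq_two_iff hp2]
    omega
  obtain ⟨r, hr⟩ := hsq
  obtain ⟨t, ht⟩ := ZMod.intCast_surjective r
  have htd : (p : ℤ) ∣ t ^ 2 - 2 := by
    rw [← ZMod.intCast_zmod_eq_zero_iff_dvd]
    push_cast
    rw [ht, hr]; ring
  set a := Nat.sqrt p with ha
  let S : Finset (ℕ × ℕ) := Finset.range (a + 1) ×ˢ Finset.range (a + 1)
  let φ : ℕ × ℕ → ZMod p := fun z => ((((z.1 : ℤ) - t * z.2 : ℤ)) : ZMod p)
  have hcard : (Finset.univ : Finset (ZMod p)).card < S.card := by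
    rw [Finset.card_univ, ZMod.card]
    simp only [S, Finset.card_product, Finset.card_range]
    exact Nat.lt_succ_sqrt _
  obtain ⟨p1, hp1, p2, hp2', hne, heq⟩ := Finset.exists_ne_map_eq_of_card_lt_of_maps_to hcard
    (f := φ) (fun _ _ => Finset.mem_univ _)
  simp only [S, Finset.mem_product, Finset.mem_range] at hp1 hp2'
  obtain ⟨x1, y1⟩ := p1
  obtain ⟨x2, y2⟩ := p2
  simp only [φ] at heq hp1 hp2'
  set x : ℤ := (x1 : ℤ) - x2 with hx
  set y : ℤ := (y1 : ℤ) - y2 with hy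
  have hqx : (p : ℤ) ∣ x - t * y := by
    rw [← ZMod.intCast_zmod_eq_zero_iff_dvd]
    have : x - t * y = ((x1 : ℤ) - t * y1) - ((x2 : ℤ) - t * y2) := by rw [hx, hy]; ring
    rw [this, Int.cast_sub, heq, sub_self]
  have hnz : ¬ (x = 0 ∧ y = 0) := by
    rintro ⟨h1, h2⟩
    apply hne
    have e1 : x1 = x2 := by omega
    have e2 : y1 = y2 := by omega
    rw [e1, e2]
  have hqpos : (0 : ℤ) < p := by exact_mod_cast hp.pos
  have hsqle : (a : ℤ) ^ 2 ≤ p := by
    have h1 : a * a ≤ p := Nat.sqrt_le _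
    have h4 : ((a * a : ℕ) : ℤ) ≤ ((p : ℕ) : ℤ) := by exact_mod_cast h1
    push_cast at h4
    nlinarith
  have hsqne : (a : ℤ) ^ 2 ≠ p := by
    intro h
    have h1 : a ^ 2 = p := by exact_mod_cast h
    have h2 := hp.prime.not_isUnit
    have h3 : a ∣ p := ⟨a, by rw [← h1]; ring⟩
    rcases (Nat.dvd_prime hp).mp h3 with h4 | h4
    · rw [h4] at h1
      have := hp.one_lt
      omega
    · rw [h4] at h1
      have := hp.one_lt
      nlinarith
  have hxlt : x ^ 2 < p := by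
    have h3 : x ^ 2 ≤ (a : ℤ) ^ 2 := sq_le_sq' (by omega) (by omega)
    omega
  have hylt : y ^ 2 < p := by
    have h3 : y ^ 2 ≤ (a : ℤ) ^ 2 := sq_le_sq' (by omega) (by omega)
    omega
  have hV : (p : ℤ) ∣ x ^ 2 - 2 * y ^ 2 := by
    have : x ^ 2 - 2 * y ^ 2 = (x - t * y) * (x + t * y) + (t ^ 2 - 2) * y ^ 2 := by ring
    rw [this]
    exact dvd_add (dvd_mul_of_dvd_left hqx _) (dvd_mul_of_dvd_left htd _)
  obtain ⟨k, hk⟩ := hV
  have hx0 : 0 ≤ x ^ 2 := by positivity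
  have hy0 : 0 ≤ y ^ 2 := by positivity
  have hk1 : k < 1 := by nlinarith
  have hk2 : -2 < k := by nlinarith
  have hk3 : k = -1 ∨ k = 0 := by omega
  rcases hk3 with rfl | rfl
  · exact ⟨x + 2 * y, x + y, by linarith⟩
  · exfalso
    have h1 : x ^ 2 = 2 * y ^ 2 := by linarith
    by_cases hy1 : y = 0
    · rw [hy1] at h1
      have h2 : x ^ 2 = 0 := by linarith
      exact hnz ⟨pow_eq_zero_iff two_ne_zero |>.mp h2, hy1⟩
    · have hdvd : y ^ 2 ∣ x ^ 2 := ⟨2, by rw [h1]; ring⟩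
      rw [Int.pow_dvd_pow_iff two_ne_zero] at hdvd
      obtain ⟨r, hr⟩ := hdvd
      rw [hr] at h1
      have h2 : y ^ 2 * (r ^ 2 - 2) = 0 := by linear_combination h1
      rcases mul_eq_zero.mp h2 with h3 | h3
      · exact hy1 (pow_eq_zero_iff two_ne_zero |>.mp h3)
      · have h4 : r ^ 2 = 2 := by linarith
        have h5 : r < 2 := by nlinarith
        have h6 : -2 < r := by nlinarith
        interval_cases r <;> omega

end H359R3
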